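import Pool.Agent.Lib.MP_edb5be_nt.PD.Iface2

/-!
Maximum excursions of the 3x+1 map: from one number to a positive proportion of all numbers.
-/

set_option autoImplicit false

namespace Pool.Agent.Lib.MP_0a5adf_nt.XT

open Finset Pool.Agent.Lib.MP_edb5be_nt.EX Pool.Agent.Lib.MP_edb5be_nt

/-- The accelerated 3x+1 map: `n / 2` for even `n` and `(3 n + 1) / 2` for odd `n`. -/
def T (n : ℕ) : ℕ := if n % 2 = 0 then n / 2 else (3 * n + 1) / 2

/-- The maximum excursion `t(n)`: the supremum of the trajectory of `n`, possibly infinite. -/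
noncomputable def t (n : ℕ) : ℕ∞ := ⨆ k : ℕ, ((T^[k] n : ℕ) : ℕ∞)

/-- The number of the integers `1 ≤ n ≤ X` with `t(n) ≥ h`. -/
noncomputable def N (X : ℝ) (h : ℕ∞) : ℕ := {n : ℕ | 1 ≤ n ∧ (n : ℝ) ≤ X ∧ h ≤ t n}.ncard

theorem Tc_cast (n : ℕ) : Tc (n : ℤ) = (T n : ℤ) := by
  unfold Tc T
  split_ifs with h1 h2 h2 <;> omega

theorem Tc_iter_cast (n k : ℕ) : Tc^[k] (n : ℤ) = ((T^[k] n : ℕ) : ℤ) := by
  induction k generalizing n with
  | zero => rfl
  | succ k ih => rw [Function.iterate_succ_apply, Function.iterate_succ_apply, Tc_cast, ih]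

theorem Tc_nonpos {n : ℤ} (h : n ≤ 0) : Tc n ≤ 0 := by
  unfold Tc
  split_ifs <;> omega

theorem Tc_iter_nonpos {n : ℤ} (h : n ≤ 0) (k : ℕ) : Tc^[k] n ≤ 0 := by
  induction k with
  | zero => exact h
  | succ k ih => rw [Function.iterate_succ_apply']; exact Tc_nonpos ih

theorem T_pos {n : ℕ} (h : 1 ≤ n) : 1 ≤ T n := by
  unfold T
  split_ifs <;> omega

theorem iter_pos {n : ℕ} (h : 1 ≤ n) (k : ℕ) : 1 ≤ T^[k] n := by
  induction k with
  | zero => exact h
  | succ k ih => rw [Function.iterate_succ_apply']; exact T_pos ih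

theorem le_t (n k : ℕ) : ((T^[k] n : ℕ) : ℕ∞) ≤ t n := le_iSup (fun k : ℕ => ((T^[k] n : ℕ) : ℕ∞)) k

theorem self_le_t (n : ℕ) : (n : ℕ∞) ≤ t n := le_t n 0

theorem t_iter_le (n k : ℕ) : t (T^[k] n) ≤ t n := by
  refine iSup_le fun j => ?_
  rw [← Function.iterate_add_apply]
  exact le_t n (j + k)

theorem t_eq (n : ℕ) : t n = max (n : ℕ∞) (t (T n)) := by
  refine le_antisymm (iSup_le fun k => ?_) (max_le (self_le_t n) (t_iter_le n 1))
  rcases k with _ | k
  · exact le_max_left _ _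
  · refine le_max_of_le_right ?_
    rw [Function.iterate_succ_apply]
    exact le_t (T n) k

theorem finite_le (P : ℕ → Prop) (X : ℝ) : {n : ℕ | 1 ≤ n ∧ (n : ℝ) ≤ X ∧ P n}.Finite := by
  refine (Set.finite_Iic ⌊X⌋₊).subset ?_
  rintro n ⟨_, h, _⟩
  exact Nat.le_floor h

theorem N_anti {X : ℝ} {h h' : ℕ∞} (hh : h ≤ h') : N X h' ≤ N X h :=
  Set.ncard_le_ncard (fun _ hn => ⟨hn.1, hn.2.1, hh.trans hn.2.2⟩) (finite_le _ X)

/-- Every number can be replaced by one prime to `3`. -/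
theorem exists_prime3 (m : ℕ) (hm : 1 ≤ m) :
    t m = m ∨ ∃ j : ℕ, ¬ 3 ∣ T^[j] m ∧ T^[j] m ≤ 2 * m ∧ t m = t (T^[j] m) := by
  induction m using Nat.strong_induction_on with
  | _ m ih =>
    rcases Nat.even_or_odd m with he | ho
    · obtain ⟨r, hr⟩ := he
      have hT : T m = r := by unfold T; split_ifs <;> omega
      rcases ih r (by omega) (by omega) with h1 | ⟨j, h1, h2, h3⟩
      · left
        rw [t_eq, hT, h1]
        apply max_eq_left
        exact_mod_cast (by omega : r ≤ m)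
      · rcases le_total (m : ℕ∞) (t r) with h4 | h4
        · right
          refine ⟨j + 1, ?_, ?_, ?_⟩
          · rw [Function.iterate_succ_apply, hT]; exact h1
          · rw [Function.iterate_succ_apply, hT]; omega
          · rw [Function.iterate_succ_apply, hT, t_eq, hT, ← h3]
            exact max_eq_right h4
        · left
          rw [t_eq, hT]
          exact max_eq_left h4
    · right
      by_cases h3 : 3 ∣ m
      · have ho' := Nat.odd_iff.1 ho
        have hT : T m = (3 * m + 1) / 2 := by unfold T; split_ifs <;> omega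
        refine ⟨1, ?_, ?_, ?_⟩
        · rw [Function.iterate_one, hT]; omega
        · rw [Function.iterate_one, hT]; omega
        · rw [Function.iterate_one, t_eq]
          apply max_eq_right
          refine le_trans ?_ (self_le_t _)
          exact_mod_cast (by rw [hT]; omega : m ≤ T m)
      · exact ⟨0, h3, by simp; omega, rfl⟩

/-- The predecessors among the positive integers. -/
theorem pre_count {c : ℝ} (hU : ∀ x : ℤ, ¬ (3 : ℤ) ∣ x → ∀ X : ℝ, |(x : ℝ)| ≤ X →
    c * (X / |(x : ℝ)|) ≤ ((Pre x X).ncard : ℝ)) (m : ℕ) (hm : 1 ≤ m) (h3 : ¬ 3 ∣ m) (X : ℝ)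
    (hX : (m : ℝ) ≤ X) (S : Set ℕ) (hS : ∀ n : ℕ, 1 ≤ n → (n : ℝ) ≤ X → (∃ k, T^[k] n = m) → n ∈ S)
    (hS2 : ∀ n ∈ S, (n : ℝ) ≤ X) :
    c * X / m ≤ (S.ncard : ℝ) := by
  have hSfin : S.Finite := (Set.finite_Iic ⌊X⌋₊).subset fun n hn => Nat.le_floor (hS2 n hn)
  have h1 := hU (m : ℤ) (by omega) X (by simpa using hX)
  have h2 : |((m : ℤ) : ℝ)| = m := by simp
  rw [h2] at h1
  have h3 : (Pre (m : ℤ) X).ncard ≤ S.ncard := by
    refine Set.ncard_le_ncard_of_injOn Int.toNat ?_ ?_ hSfin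
    · rintro n ⟨hn1, k, hk⟩
      have hn0 : 0 < n := by
        by_contra h
        have := Tc_iter_nonpos (by omega : n ≤ 0) k
        omega
      obtain ⟨a, rfl⟩ := Int.eq_ofNat_of_zero_le hn0.le
      rw [Tc_iter_cast] at hk
      simp only [Int.toNat_natCast]
      refine hS a (by omega) ?_ ⟨k, by exact_mod_cast hk⟩
      simpa using hn1
    · rintro a ⟨_, k, hk⟩ b ⟨_, l, hl⟩ hab
      have ha0 : 0 < a := by
        by_contra h
        have := Tc_iter_nonpos (by omega : a ≤ 0) k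
        omega
      have hb0 : 0 < b := by
        by_contra h
        have := Tc_iter_nonpos (by omega : b ≤ 0) l
        omega
      have : a.toNat = b.toNat := hab
      omega
  calc c * X / m = c * (X / m) := by ring
    _ ≤ ((Pre (m : ℤ) X).ncard : ℝ) := h1
    _ ≤ _ := by exact_mod_cast h3

/-- **The key inequality**: at least `c X / m` of the `n ≤ X` have `t(n) ≥ t(m)`. -/
theorem key (hU : PD.UCountStatement) :
    ∃ c : ℝ, 0 < c ∧ ∀ (m : ℕ) (X : ℝ), 1 ≤ m → (m : ℝ) ≤ X → c * X / m ≤ (N X (t m) : ℝ) := by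
  obtain ⟨c, hc, hU⟩ := hU
  refine ⟨min (c / 2) (1 / 2), by positivity, fun m X hm hX => ?_⟩
  set c' := min (c / 2) (1 / 2) with hc'
  have hc0 : 0 < c' := by positivity
  have h12 : c' ≤ 1 / 2 := min_le_right _ _
  have hc2 : c' ≤ c / 2 := min_le_left _ _
  have hm0 : (0 : ℝ) < m := by exact_mod_cast hm
  have hm1 : (1 : ℝ) ≤ m := by exact_mod_cast hm
  have hX0 : 0 < X := by linarith
  -- the number `m` itself
  have hone : (1 : ℝ) ≤ N X (t m) := by
    have : 0 < N X (t m) := by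
      refine (Set.ncard_pos (finite_le _ X)).2 ⟨m, hm, hX, le_rfl⟩
    exact_mod_cast this
  rcases le_or_gt X (2 * m) with h2 | h2
  · refine le_trans ?_ hone
    rw [div_le_one hm0]
    nlinarith
  rcases exists_prime3 m hm with h3 | ⟨j, h3, h4, h5⟩
  · -- `t(m) = m`
    have h6 : (X : ℝ) - m ≤ N X (t m) := by
      have hsub : Set.Icc m ⌊X⌋₊ ⊆ {n : ℕ | 1 ≤ n ∧ (n : ℝ) ≤ X ∧ t m ≤ t n} := by
        rintro n ⟨hn1, hn2⟩
        refine ⟨by omega, (Nat.le_floor_iff hX0.le).1 hn2, ?_⟩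
        rw [h3]
        exact le_trans (by exact_mod_cast hn1) (self_le_t n)
      have h7 := Set.ncard_le_ncard hsub (finite_le _ X)
      have h8 : (Set.Icc m ⌊X⌋₊).ncard = ⌊X⌋₊ + 1 - m := by
        rw [← Nat.card_coe_set_eq, Nat.card_eq_fintype_card]; simp
      rw [h8] at h7
      have h9 : (⌊X⌋₊ + 1 - m : ℕ) ≤ N X (t m) := h7
      have h10 : X < ⌊X⌋₊ + 1 := Nat.lt_floor_add_one X
      have h11 : m ≤ ⌊X⌋₊ + 1 := by
        have : m ≤ ⌊X⌋₊ := Nat.le_floor hX
        omega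
      have h12 : ((⌊X⌋₊ + 1 - m : ℕ) : ℝ) = (⌊X⌋₊ : ℝ) + 1 - m := by
        rw [Nat.cast_sub h11]; push_cast; ring
      have h13 : ((⌊X⌋₊ + 1 - m : ℕ) : ℝ) ≤ N X (t m) := by exact_mod_cast h9
      rw [h12] at h13
      linarith
    refine le_trans ?_ h6
    rw [div_le_iff₀ hm0]
    nlinarith
  · -- a number prime to `3`
    set m' := T^[j] m with hm'
    have hm'1 : 1 ≤ m' := iter_pos hm j
    have hm'2 : (m' : ℝ) ≤ 2 * m := by exact_mod_cast h4
    have hm'0 : (0 : ℝ) < m' := by exact_mod_cast hm'1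
    have h6 : c * X / m' ≤ (N X (t m) : ℝ) := by
      refine pre_count hU m' hm'1 h3 X (by linarith) _ ?_ ?_
      · rintro n hn1 hn2 ⟨k, hk⟩
        refine ⟨hn1, hn2, ?_⟩
        rw [h5, ← hk]
        exact t_iter_le n k
      · exact fun n hn => hn.2.1
    refine le_trans ?_ h6
    rw [div_le_div_iff₀ hm0 hm'0]
    have h7 : c' * X * m' ≤ c / 2 * X * (2 * m) := by
      gcongr
    linarith

end Pool.Agent.Lib.MP_0a5adf_nt.XT
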