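import Pool.Agent.Lib.MP_edb5be_nt.PD.H26.Asm
import Pool.Agent.Lib.MP_0a5adf_nt.XT.Base

/-!
Maximum excursions of the 3x+1 map: the uniform count of the project PD.
-/

set_option autoImplicit false

namespace Pool.Agent.Lib.MP_0a5adf_nt.XT

open Pool.Agent.Lib.MP_edb5be_nt.EX Pool.Agent.Lib.MP_edb5be_nt

theorem ucount : PD.UCountStatement := by
  obtain ⟨c, K, hc, -, h⟩ := PD.ucounttT
  refine ⟨c, hc, fun x hx X hX => (h x hx X hX).trans ?_⟩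
  have hfin : (Pre x X).Finite := by
    refine (Set.finite_Icc (-⌊X⌋) ⌊X⌋).subset ?_
    rintro n ⟨hn, -⟩
    rw [abs_le] at hn
    refine ⟨?_, Int.le_floor.2 hn.2⟩
    have : -n ≤ ⌊X⌋ := Int.le_floor.2 (by push_cast; linarith)
    omega
  have hsub : {n : ℤ | |(n : ℝ)| ≤ X ∧
      ∃ k : ℕ, (k : ℝ) ≤ K * (Real.log (X / |(x : ℝ)|) + 1) ∧ Tc^[k] n = x} ⊆ Pre x X := by
    rintro n ⟨h1, k, -, h2⟩
    exact ⟨h1, k, h2⟩
  exact_mod_cast Set.ncard_le_ncard hsub hfin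

end Pool.Agent.Lib.MP_0a5adf_nt.XT
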