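import Pool.Agent.Lib.MP_0a5adf_nt.XT.Transfer

/-!
Maximum excursions of the 3x+1 map: bounds for the number of large excursions in dyadic blocks give
bounds for all excursions. (The case `δ = 1` and the use of the least exception are due to helper75.)
-/

set_option autoImplicit false

namespace Pool.Agent.Lib.MP_0a5adf_nt.XT

open Finset Pool.Agent.Lib.MP_edb5be_nt

/-- The `m` of `[X, 2X)` with `t(m) > C m ^ θ`. -/
def Exc (C θ : ℝ) (X : ℕ) : Set ℕ :=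
  {m : ℕ | X ≤ m ∧ m < 2 * X ∧ ((⌊C * (m : ℝ) ^ θ⌋₊ : ℕ) : ℕ∞) < t m}

theorem Exc_finite (C θ : ℝ) (X : ℕ) : (Exc C θ X).Finite :=
  (Set.finite_Iio (2 * X)).subset fun _ hm => hm.2.1

/-- The least exception and the blocks above it. -/
theorem count_blocks {c : ℝ} (hkey : KeyIneq c) {θ γ A C K δ : ℝ} (hθ : 0 < θ) (hγ : 0 < γ)
    (hA : 0 ≤ A) (hC : 0 ≤ C) (hK : ∀ X : ℕ, 1 ≤ X → ((Exc C θ X).ncard : ℝ) ≤ K * (X : ℝ) ^ (1 - δ))
    {n : ℕ} (hn : 1 ≤ n) (hex : ((⌊A * (n : ℝ) ^ γ⌋₊ : ℕ) : ℕ∞) < t n)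
    (hmin : ∀ m < n, 1 ≤ m → t m ≤ (⌊A * (m : ℝ) ^ γ⌋₊ : ℕ)) {X : ℝ} (hX : (n : ℝ) ≤ X)
    (hXA : C * X ^ θ ≤ A * (n : ℝ) ^ γ) {J : ℕ} (hJ : X < n * 2 ^ (J + 1)) :
    c * X / n ≤ ∑ i ∈ range (J + 1), K * ((2 : ℝ) ^ i * n) ^ (1 - δ) := by
  have h1 := hkey n X hn hX
  refine h1.trans ?_
  have hn0 : (0 : ℝ) < n := by exact_mod_cast hn
  have hsub : {m : ℕ | 1 ≤ m ∧ (m : ℝ) ≤ X ∧ t n ≤ t m} ⊆
      ⋃ i ∈ (range (J + 1) : Set ℕ), Exc C θ (2 ^ i * n) := by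
    rintro m ⟨hm1, hm2, hm3⟩
    have hmn : n ≤ m := by
      by_contra hlt
      push Not at hlt
      have h2 := hmin m hlt hm1
      have h3 : ((⌊A * (m : ℝ) ^ γ⌋₊ : ℕ) : ℕ∞) ≤ (⌊A * (n : ℝ) ^ γ⌋₊ : ℕ) := by
        apply floor_mono
        apply mul_le_mul_of_nonneg_left _ hA
        exact Real.rpow_le_rpow (Nat.cast_nonneg m) (by exact_mod_cast hlt.le) hγ.le
      exact absurd (hm3.trans (h2.trans h3)) (not_le.2 hex)
    have hexc : ((⌊C * (m : ℝ) ^ θ⌋₊ : ℕ) : ℕ∞) < t m := by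
      refine lt_of_le_of_lt ?_ (lt_of_lt_of_le hex hm3)
      apply floor_mono
      refine le_trans ?_ hXA
      apply mul_le_mul_of_nonneg_left _ hC
      exact Real.rpow_le_rpow (Nat.cast_nonneg m) hm2 hθ.le
    have hm0 : m / n ≠ 0 := (Nat.div_pos hmn (by omega)).ne'
    set i := Nat.log 2 (m / n) with hi
    have e1 : 2 ^ i ≤ m / n := Nat.pow_log_le_self 2 hm0
    have e2 : m / n < 2 ^ (i + 1) := Nat.lt_pow_succ_log_self (by norm_num) _
    have e3 : 2 ^ i * n ≤ m := (Nat.mul_le_mul_right n e1).trans (Nat.div_mul_le_self m n)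
    have e4 : m < 2 * (2 ^ i * n) := by
      have : m < 2 ^ (i + 1) * n := (Nat.div_lt_iff_lt_mul (by omega)).1 e2
      rw [pow_succ] at this
      linarith
    have e5 : i < J + 1 := by
      have h6 : ((2 ^ i * n : ℕ) : ℝ) < n * 2 ^ (J + 1) := by
        have : ((2 ^ i * n : ℕ) : ℝ) ≤ m := by exact_mod_cast e3
        linarith
      have h7 : 2 ^ i * n < n * 2 ^ (J + 1) := by exact_mod_cast h6
      have h8 : 2 ^ i < 2 ^ (J + 1) := by
        rw [mul_comm n] at h7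
        exact Nat.lt_of_mul_lt_mul_right h7
      exact (Nat.pow_lt_pow_iff_right (by norm_num)).1 h8
    simp only [Set.mem_iUnion]
    exact ⟨i, by simpa using e5, e3, e4, hexc⟩
  have hfinU : (⋃ i ∈ (range (J + 1) : Set ℕ), Exc C θ (2 ^ i * n)).Finite :=
    Set.Finite.biUnion (Finset.finite_toSet _) fun i _ => Exc_finite C θ _
  have h2 := Set.ncard_le_ncard hsub hfinU
  have h3 : (⋃ i ∈ (range (J + 1) : Set ℕ), Exc C θ (2 ^ i * n)).ncard ≤
      ∑ i ∈ range (J + 1), (Exc C θ (2 ^ i * n)).ncard := by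
    simpa using Finset.set_ncard_biUnion_le (range (J + 1)) fun i => Exc C θ (2 ^ i * n)
  have h4 : (N X (t n) : ℝ) ≤ ∑ i ∈ range (J + 1), ((Exc C θ (2 ^ i * n)).ncard : ℝ) := by
    exact_mod_cast h2.trans h3
  refine h4.trans (sum_le_sum fun i _ => ?_)
  have h5 := hK (2 ^ i * n) (Nat.mul_pos (by positivity) (by omega))
  push_cast at h5
  exact h5

/-- **Transfer in dyadic blocks.** -/
theorem transfer_blocks {c : ℝ} (hc : 0 < c) (hkey : KeyIneq c) (θ δ C₀ K₀ : ℝ) (hθ : 0 < θ)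
    (hδ : 0 < δ) (hδ1 : δ ≤ 1)
    (hN : ∀ X : ℕ, 1 ≤ X → ((Exc C₀ θ X).ncard : ℝ) ≤ K₀ * (X : ℝ) ^ (1 - δ)) :
    ∃ C : ℝ, ∀ n : ℕ, 1 ≤ n → t n ≤ ⌊C * (n : ℝ) ^ (θ / δ)⌋₊ := by
  set C := max C₀ 0 with hCdef
  have hC : 0 ≤ C := le_max_right _ _
  set K := max K₀ 0 with hKdef
  have hK0 : 0 ≤ K := le_max_right _ _
  have hK : ∀ X : ℕ, 1 ≤ X → ((Exc C θ X).ncard : ℝ) ≤ K * (X : ℝ) ^ (1 - δ) := by
    intro X hX
    have h1 : (Exc C θ X).ncard ≤ (Exc C₀ θ X).ncard := by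
      refine Set.ncard_le_ncard ?_ (Exc_finite _ _ _)
      rintro m ⟨h1, h2, h3⟩
      refine ⟨h1, h2, lt_of_le_of_lt ?_ h3⟩
      apply floor_mono
      exact mul_le_mul_of_nonneg_right (le_max_left _ _) (by positivity)
    calc ((Exc C θ X).ncard : ℝ) ≤ (Exc C₀ θ X).ncard := by exact_mod_cast h1
      _ ≤ K₀ * (X : ℝ) ^ (1 - δ) := hN X hX
      _ ≤ _ := mul_le_mul_of_nonneg_right (le_max_left _ _) (by positivity)
  set γ := θ / δ with hγdef
  have hγ : 0 < γ := by positivity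
  -- the size of `M`
  obtain ⟨M, hM1, hM⟩ : ∃ M : ℝ, 1 ≤ M ∧ ∀ (n : ℕ) (J : ℕ), 1 ≤ n →
      (n : ℝ) * 2 ^ J ≤ (M * n) ^ (1 / δ) → (M * n) ^ (1 / δ) < n * 2 ^ (J + 1) →
      ∑ i ∈ range (J + 1), K * ((2 : ℝ) ^ i * n) ^ (1 - δ) < c * (M * n) ^ (1 / δ) / n := by
    rcases lt_or_eq_of_le hδ1 with hlt | heq
    · -- `δ < 1`
      set r : ℝ := 2 ^ (1 - δ) with hr
      have hr1 : 1 < r := by
        rw [hr]; exact Real.one_lt_rpow (by norm_num) (by linarith)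
      set S : ℝ := r / (r - 1) with hS
      have hS0 : 0 < S := div_pos (by linarith) (by linarith)
      refine ⟨K * S / c + 1, by linarith [show 0 ≤ K * S / c by positivity], ?_⟩
      intro n J hn hJ1 _
      have hn0 : (0 : ℝ) < n := by exact_mod_cast hn
      set M := K * S / c + 1 with hM
      have hMpos : 0 < M := by linarith [show 0 ≤ K * S / c by positivity]
      set X := (M * n) ^ (1 / δ) with hXdef
      have hX0 : 0 < X := by positivity
      have h1 : ∀ i : ℕ, ((2 : ℝ) ^ i * n) ^ (1 - δ) = r ^ i * (n : ℝ) ^ (1 - δ) := by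
        intro i
        rw [Real.mul_rpow (by positivity) hn0.le, hr, ← Real.rpow_natCast, ← Real.rpow_mul (by norm_num),
          ← Real.rpow_natCast, ← Real.rpow_mul (by norm_num), mul_comm (i : ℝ)]
      have h2 : ∑ i ∈ range (J + 1), K * ((2 : ℝ) ^ i * n) ^ (1 - δ) =
          K * ((n : ℝ) ^ (1 - δ) * ∑ i ∈ range (J + 1), r ^ i) := by
        rw [mul_sum, mul_sum]
        exact sum_congr rfl fun i _ => by rw [h1]; ring
      have h3 : ∑ i ∈ range (J + 1), r ^ i ≤ S * r ^ J := by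
        rw [geom_sum_eq hr1.ne', hS, div_mul_eq_mul_div]
        apply div_le_div_of_nonneg_right _ (by linarith)
        rw [pow_succ]; linarith
      have h4 : r ^ J * (n : ℝ) ^ (1 - δ) ≤ X ^ (1 - δ) := by
        rw [← h1 J]
        apply Real.rpow_le_rpow (by positivity) _ (by linarith)
        linarith
      have h5 : ∑ i ∈ range (J + 1), K * ((2 : ℝ) ^ i * n) ^ (1 - δ) ≤ K * (S * X ^ (1 - δ)) := by
        rw [h2]
        apply mul_le_mul_of_nonneg_left _ hK0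
        calc (n : ℝ) ^ (1 - δ) * ∑ i ∈ range (J + 1), r ^ i ≤ (n : ℝ) ^ (1 - δ) * (S * r ^ J) :=
              mul_le_mul_of_nonneg_left h3 (by positivity)
          _ = S * (r ^ J * (n : ℝ) ^ (1 - δ)) := by ring
          _ ≤ _ := mul_le_mul_of_nonneg_left h4 hS0.le
      refine h5.trans_lt ?_
      have h6 : X ^ δ = M * n := by
        rw [hXdef, ← Real.rpow_mul (by positivity), one_div, inv_mul_cancel₀ hδ.ne', Real.rpow_one]
      have h7 : X ^ (1 - δ) * X ^ δ = X := by rw [← Real.rpow_add hX0]; simp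
      have h8 : 0 < X ^ (1 - δ) := by positivity
      rw [lt_div_iff₀ hn0]
      have h9 : K * S < c * M := by
        rw [hM]
        have : c * (K * S / c + 1) = K * S + c := by field_simp
        rw [this]; linarith
      calc K * (S * X ^ (1 - δ)) * n = (K * S) * (X ^ (1 - δ) * n) := by ring
        _ < (c * M) * (X ^ (1 - δ) * n) := mul_lt_mul_of_pos_right h9 (by positivity)
        _ = c * (X ^ (1 - δ) * (M * n)) := by ring
        _ = c * X := by rw [← h6, h7]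
    · -- `δ = 1`
      have h := tendsto_pow_const_div_const_pow_of_one_lt 1 (r := (2 : ℝ)) one_lt_two
      have h2 : 0 < c / (2 * (K + 1)) := by positivity
      obtain ⟨N₀, hN₀⟩ := ((tendsto_order.1 h).2 _ h2).exists_forall_of_atTop
      refine ⟨2 ^ N₀, one_le_pow₀ (by norm_num), ?_⟩
      intro n J hn hJ1 hJ2
      have hn0 : (0 : ℝ) < n := by exact_mod_cast hn
      rw [heq] at hJ1 hJ2 ⊢
      simp only [div_one, Real.rpow_one, sub_self, Real.rpow_zero, mul_one, sum_const, card_range,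
        nsmul_eq_mul] at hJ1 hJ2 ⊢
      have hJ3 : (2 : ℝ) ^ J ≤ 2 ^ N₀ := by
        have : (n : ℝ) * 2 ^ J ≤ n * 2 ^ N₀ := by linarith
        exact le_of_mul_le_mul_left this hn0
      have hJ4 : J ≤ N₀ := (pow_le_pow_iff_right₀ (by norm_num : (1 : ℝ) < 2)).1 hJ3
      have h3 := hN₀ (N₀ + 1) (by omega)
      rw [pow_one, div_lt_div_iff₀ (by positivity) (by positivity)] at h3
      have h4 : c * (2 ^ N₀ * n) / n = c * 2 ^ N₀ := by field_simp
      rw [h4]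
      have h5 : ((J : ℝ) + 1) ≤ N₀ + 1 := by
        have : (J : ℝ) ≤ N₀ := by exact_mod_cast hJ4
        linarith
      push_cast at h3 ⊢
      rw [pow_succ] at h3
      have h6 : ((J : ℝ) + 1) * K ≤ (N₀ + 1) * K := mul_le_mul_of_nonneg_right h5 hK0
      have h7 : (0 : ℝ) ≤ N₀ := Nat.cast_nonneg _
      nlinarith
  -- the least exception
  have hM0 : 0 < M := by linarith
  refine ⟨C * M ^ γ, ?_⟩
  by_contra hcon
  push Not at hcon
  have hex : ∃ n : ℕ, 1 ≤ n ∧ ((⌊C * M ^ γ * (n : ℝ) ^ γ⌋₊ : ℕ) : ℕ∞) < t n := hcon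
  classical
  set n := Nat.find hex with hndef
  obtain ⟨hn, hk⟩ := Nat.find_spec hex
  have hmin : ∀ m < n, 1 ≤ m → t m ≤ (⌊C * M ^ γ * (m : ℝ) ^ γ⌋₊ : ℕ) := by
    intro m hm hm1
    have := Nat.find_min hex hm
    by_contra hlt
    push Not at hlt
    exact this ⟨hm1, hlt⟩
  rw [← hndef] at hn hk
  have hn0 : (0 : ℝ) < n := by exact_mod_cast hn
  have hn1 : (1 : ℝ) ≤ n := by exact_mod_cast hn
  set X := (M * n) ^ (1 / δ) with hXdef
  have hMn : 1 ≤ M * n := one_le_mul_of_one_le_of_one_le hM1 hn1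
  have hnX : (n : ℝ) ≤ X := by
    calc (n : ℝ) ≤ M * n := le_mul_of_one_le_left hn0.le hM1
      _ = (M * n) ^ (1 : ℝ) := (Real.rpow_one _).symm
      _ ≤ X := Real.rpow_le_rpow_of_exponent_le hMn (by rw [le_div_iff₀ hδ]; linarith)
  have hX0 : 0 < X := by linarith
  have hXA : C * X ^ θ ≤ C * M ^ γ * (n : ℝ) ^ γ := by
    have : X ^ θ = M ^ γ * (n : ℝ) ^ γ := by
      rw [hXdef, ← Real.rpow_mul (by positivity), ← Real.mul_rpow (by positivity) hn0.le, hγdef]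
      congr 1
      ring
    rw [this]
    linarith
  -- the number of blocks
  have hXn : 1 ≤ X / n := by rw [le_div_iff₀ hn0]; linarith
  have hfl : ⌊X / n⌋₊ ≠ 0 := by
    have := (Nat.one_le_floor_iff _).2 hXn
    omega
  set J := Nat.log 2 ⌊X / n⌋₊ with hJ
  have hJ1 : (n : ℝ) * 2 ^ J ≤ X := by
    have h1 := Nat.pow_log_le_self 2 hfl
    have h2 : ((2 ^ J : ℕ) : ℝ) ≤ ⌊X / n⌋₊ := by exact_mod_cast h1
    have h3 : (⌊X / n⌋₊ : ℝ) ≤ X / n := Nat.floor_le (by positivity)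
    push_cast at h2
    have h4 : (2 : ℝ) ^ J ≤ X / n := h2.trans h3
    rw [le_div_iff₀ hn0] at h4
    linarith
  have hJ2 : X < n * 2 ^ (J + 1) := by
    have h1 := Nat.lt_pow_succ_log_self (by norm_num : 1 < 2) ⌊X / n⌋₊
    have h2 : ⌊X / n⌋₊ + 1 ≤ 2 ^ (J + 1) := h1
    have h3 : ((⌊X / n⌋₊ : ℝ)) + 1 ≤ 2 ^ (J + 1) := by exact_mod_cast h2
    have h4 : X / n < 2 ^ (J + 1) := (Nat.lt_floor_add_one _).trans_le h3
    rw [div_lt_iff₀ hn0] at h4
    linarith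
  have h1 := count_blocks hkey hθ hγ (by positivity) hC hK hn hk hmin hnX hXA hJ2
  have h2 := hM n J hn hJ1 hJ2
  linarith

/-- The equivalence for `δ = 1`. -/
theorem equiv_blocks {c : ℝ} (hc : 0 < c) (hkey : KeyIneq c) (θ : ℝ) (hθ : 0 < θ) :
    (∃ C : ℝ, ∀ n : ℕ, 1 ≤ n → t n ≤ ⌊C * (n : ℝ) ^ θ⌋₊) ↔
      ∃ C K : ℝ, ∀ X : ℕ, 1 ≤ X → ((Exc C θ X).ncard : ℝ) ≤ K := by
  constructor
  · rintro ⟨C, hC⟩
    refine ⟨C, 0, fun X hX => ?_⟩
    have : Exc C θ X = ∅ := by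
      rw [Set.eq_empty_iff_forall_notMem]
      rintro m ⟨h1, h2, h3⟩
      exact absurd (hC m (by omega)) (not_le.2 h3)
    rw [this, Set.ncard_empty]
    simp
  · rintro ⟨C, K, h⟩
    have := transfer_blocks hc hkey θ 1 C K hθ one_pos le_rfl (by simpa using h)
    simpa using this

end Pool.Agent.Lib.MP_0a5adf_nt.XT
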