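import Pool.Agent.Lib.MP_0a5adf_nt.TP.All

/-!
Maximum excursions of the 3x+1 map: the trajectories that do not fall below `y` and do not climb
early. (Adapted from the module FINAL of the project TAO+.)
-/

set_option autoImplicit false

open Filter Topology

namespace Pool.Agent.Lib.MP_0a5adf_nt.XT

open TP TP.H11

theorem tail_bad (hdom : DomStatement) (htop : TopStatement) (hchain : ChainStatement) (d : Bool)
    (hbot : BottomStatement d) :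
    ∃ c C Y0 : ℝ, 0 < c ∧ 0 < C ∧ 1 ≤ Y0 ∧ ∀ y : ℝ, Y0 ≤ y → ∃ L₀ : ℕ, ∀ (L : ℕ) (lam : ℝ),
      L₀ ≤ L → 1 ≤ lam → ({N : ℕ | 2 ^ L ≤ N ∧ N < 2 ^ (L + 1) ∧
        ∀ i ≤ L, (TP.T d)^[i] N ∈ Bad d y (lam * 2 ^ L)}.ncard : ℝ) ≤ 2 ^ L * (C * (1 / y ^ c)) := by
  obtain ⟨C1, L1, hC1, hdom⟩ := hdom
  obtain ⟨C2, L2, hC2, htop⟩ := htop
  obtain ⟨C3, p0, hC3, hchain⟩ := hchain
  obtain ⟨hinv, hcov, δ2, C4, hδ2, hC4, hbot⟩ := hbot
  set δ : ℝ := δ2 with hδ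
  have hδ0 : 0 < δ := hδ2
  -- thresholds
  have ev1 : ∀ᶠ y : ℝ in atTop, (2 : ℝ) ^ (p0 + 1) ≤ y ^ (δ / 8) :=
    (tendsto_rpow_atTop (by positivity)).eventually_ge_atTop _
  have ev2 : ∀ᶠ y : ℝ in atTop, Real.log y ≤ (128 * Real.log 2) * y ^ (δ / 8) := by
    have h1 := (isLittleO_log_rpow_atTop (by positivity : 0 < δ / 8)).bound
      (by have := Real.log_pos one_lt_two; positivity : 0 < 128 * Real.log 2)
    filter_upwards [h1, eventually_ge_atTop 1] with y hy hy1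
    have h2 : |y ^ (δ / 8)| = y ^ (δ / 8) := abs_of_nonneg (by positivity)
    rw [Real.norm_eq_abs, Real.norm_eq_abs, h2] at hy
    exact (le_abs_self _).trans hy
  have ev3 : ∀ᶠ y : ℝ in atTop, (L1 + L2 + 65536 : ℝ) ≤ y ^ (δ / 2) :=
    (tendsto_rpow_atTop (by positivity)).eventually_ge_atTop _
  obtain ⟨Y0, hY0⟩ := (ev1.and (ev2.and (ev3.and (eventually_ge_atTop (1:ℝ))))).exists_forall_of_atTop
  have hY01 : 1 ≤ Y0 := (hY0 Y0 le_rfl).2.2.2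
  set c : ℝ := δ / 20 with hc
  have hc0 : 0 < c := by positivity
  set Cb : ℝ := C1 + C1 * C2 + C1 * C2 * (2 + 513 * C4 + 2 * C3) with hCb
  have hCb0 : 0 < Cb := by positivity
  refine ⟨c, Cb, Y0, hc0, hCb0, hY01, ?_⟩
  intro y hyY
  obtain ⟨L₀, hL₀⟩ := exists_nat_gt (y ^ (δ / 2) + y ^ 2)
  refine ⟨L₀ + 1, ?_⟩
  intro L lam hLL hlam
  have hy : 1 ≤ y := hY01.trans hyY
  have hL : 1 ≤ L := by omega
  have hLL' : y ^ (δ / 2) + y ^ 2 < L := by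
    have : (L₀ : ℝ) ≤ L := by exact_mod_cast (by omega : L₀ ≤ L)
    linarith
  have hLy : y ^ (δ / 2) < L := by
    have : 0 < y ^ 2 := by positivity
    linarith
  have hy0 : 0 < y := by linarith
  have hyc : 1 ≤ y ^ c := Real.one_le_rpow hy hc0.le
  have hyc0 : 0 < y ^ c := by positivity
  have h2L : (0:ℝ) < 2 ^ L := by positivity
  have hlam0 : 0 < lam := by linarith
  -- powers of y
  have hpw : ∀ e : ℝ, c ≤ e → 1 / y ^ e ≤ 1 / y ^ c := fun e he =>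
    one_div_le_one_div_of_le hyc0 (Real.rpow_le_rpow_of_exponent_le hy he)
  obtain ⟨g1, g2, g3, -⟩ := hY0 y hyY
  have hY0c : 0 < Y0 ^ c := by positivity
  -- large `L`
  have hLbig : (L1 + L2 + 65536 : ℝ) ≤ L := g3.trans hLy.le
  have hLbig' : L1 + L2 + 65536 ≤ L := by exact_mod_cast hLbig
  have hL0 : (0:ℝ) < L := by
    have : (1:ℝ) ≤ L := by exact_mod_cast hL
    linarith
  -- choice of `p`
  obtain ⟨p, hp1, hp2⟩ : ∃ p : ℕ, 10 * 2 ^ (p + 10) ≤ 9 * L ∧ 9 * L < 10 * 2 ^ (p + 11) := by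
    have hm : 9 * L / 10240 ≠ 0 := by
      have : 1 ≤ 9 * L / 10240 := (Nat.le_div_iff_mul_le (by norm_num)).2 (by omega)
      omega
    refine ⟨Nat.log 2 (9 * L / 10240), ?_, ?_⟩
    · have h1 := Nat.pow_log_le_self 2 hm
      have h2 : 2 ^ (Nat.log 2 (9 * L / 10240) + 10) = 1024 * 2 ^ Nat.log 2 (9 * L / 10240) := by
        rw [pow_add]; ring
      have h3 : 10240 * (9 * L / 10240) ≤ 9 * L := Nat.mul_div_le _ _
      rw [h2]; omega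
    · have h1 := Nat.lt_pow_succ_log_self (by norm_num : 1 < 2) (9 * L / 10240)
      have h2 : 2 ^ (Nat.log 2 (9 * L / 10240) + 11)
          = 1024 * 2 ^ (Nat.log 2 (9 * L / 10240) + 1) := by
        rw [pow_add, pow_add]; ring
      have h3 : 9 * L < 10240 * (9 * L / 10240 + 1) := by
        have := Nat.div_add_mod (9 * L) 10240
        have := Nat.mod_lt (9 * L) (by norm_num : 10240 > 0)
        omega
      have h4 : 9 * L / 10240 + 1 ≤ 2 ^ (Nat.log 2 (9 * L / 10240) + 1) := h1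
      rw [h2]; omega
  -- choice of `p₁`
  have hY1 : 1 ≤ y ^ (δ / 8) := Real.one_le_rpow hy (by positivity)
  obtain ⟨p1, hq1, hq2⟩ : ∃ p1 : ℕ, (2:ℝ) ^ p1 ≤ y ^ (δ / 8) ∧ y ^ (δ / 8) < 2 ^ (p1 + 1) := by
    have hm : ⌊y ^ (δ / 8)⌋₊ ≠ 0 := by
      have := (Nat.one_le_floor_iff _).2 hY1
      omega
    refine ⟨Nat.log 2 ⌊y ^ (δ / 8)⌋₊, ?_, ?_⟩
    · have h1 := Nat.pow_log_le_self 2 hm
      have h2 : ((2 ^ Nat.log 2 ⌊y ^ (δ / 8)⌋₊ : ℕ) : ℝ) ≤ (⌊y ^ (δ / 8)⌋₊ : ℝ) := by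
        exact_mod_cast h1
      push_cast at h2
      exact h2.trans (Nat.floor_le (by positivity))
    · have h1 := Nat.lt_pow_succ_log_self (by norm_num : 1 < 2) ⌊y ^ (δ / 8)⌋₊
      have h2 : ⌊y ^ (δ / 8)⌋₊ + 1 ≤ 2 ^ (Nat.log 2 ⌊y ^ (δ / 8)⌋₊ + 1) := h1
      have h3 := Nat.lt_floor_add_one (y ^ (δ / 8))
      refine h3.trans_le ?_
      exact_mod_cast h2
  have hpp1 : p0 ≤ p1 := by
    have h1 : (2:ℝ) ^ (p0 + 1) < 2 ^ (p1 + 1) := g1.trans_lt hq2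
    have h2 := (pow_lt_pow_iff_right₀ (by norm_num : (1:ℝ) < 2)).1 h1
    omega
  -- `r = 2 ^ p₁`
  have hr4 : (2 ^ p1) ^ 4 < L := by
    have h1 : ((2:ℝ) ^ p1) ^ 4 ≤ (y ^ (δ / 8)) ^ 4 := pow_le_pow_left₀ (by positivity) hq1 4
    have h2 : (y ^ (δ / 8)) ^ 4 = y ^ (δ / 2) := by
      rw [← Real.rpow_natCast, ← Real.rpow_mul hy0.le]
      congr 1; push_cast; ring
    rw [h2] at h1
    have h3 : ((2:ℝ) ^ p1) ^ 4 < L := h1.trans_lt hLy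
    exact_mod_cast h3
  obtain ⟨hn1, hn2⟩ := num_cond (P := 2 ^ p) (by omega : 65536 ≤ L) hr4 (by
    have : 10 * 2 ^ (p + 11) = 20480 * 2 ^ p := by rw [pow_add]; ring
    omega)
  have hpp : p1 ≤ p := (Nat.pow_le_pow_iff_right (by norm_num : 1 < 2)).1 hn2
  -- the number `y` and the scales
  have hylo : y ^ 2 ≤ (2:ℝ) ^ (2 ^ (p1 + 9) : ℕ) := by
    have h1 : Real.log (y ^ 2) ≤ Real.log ((2:ℝ) ^ (2 ^ (p1 + 9) : ℕ)) := by
      rw [Real.log_pow, Real.log_pow]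
      push_cast
      have e1 : (256:ℝ) * y ^ (δ / 8) ≤ 2 ^ (p1 + 9) := by
        have : (2:ℝ) ^ (p1 + 9) = 256 * 2 ^ (p1 + 1) := by
          rw [pow_add, pow_add]; ring
        rw [this]
        exact mul_le_mul_of_nonneg_left hq2.le (by norm_num)
      have e2 : 0 < Real.log 2 := Real.log_pos one_lt_two
      calc 2 * Real.log y ≤ 2 * (128 * Real.log 2 * y ^ (δ / 8)) := by linarith
        _ = 256 * y ^ (δ / 8) * Real.log 2 := by ring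
        _ ≤ 2 ^ (p1 + 9) * Real.log 2 := mul_le_mul_of_nonneg_right e1 e2.le
    exact (Real.log_le_log_iff (by positivity) (by positivity)).1 h1
  have hylo1 : y ≤ (2:ℝ) ^ (2 ^ (p1 + 8) : ℕ) := by
    have h1 : y ^ 2 ≤ ((2:ℝ) ^ (2 ^ (p1 + 8) : ℕ)) ^ 2 := by
      refine hylo.trans (le_of_eq ?_)
      rw [← pow_mul]
      congr 1
    exact (pow_le_pow_iff_left₀ hy0.le (by positivity) (by norm_num)).1 h1
  have hylo2 : y ≤ (2:ℝ) ^ (2 ^ (p + 9) : ℕ) := by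
    refine hylo1.trans ?_
    apply pow_le_pow_right₀ (by norm_num)
    exact Nat.pow_le_pow_right (by norm_num) (by omega)
  -- the sets
  set H : ℝ := lam * 2 ^ L with hH
  have hH1 : (2:ℝ) ^ L ≤ H := by
    rw [hH]
    calc (2:ℝ) ^ L = 1 * 2 ^ L := (one_mul _).symm
      _ ≤ lam * 2 ^ L := mul_le_mul_of_nonneg_right hlam h2L.le
  set B : Set ℕ := Bad d y H with hB
  have inv1 : Inv d B (2 ^ (p1 + 8)) (2 ^ L) := inv_mono (hinv y H _ hylo1) hH1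
  have inv2 : Inv d B (2 ^ (p + 9)) (2 ^ L) := inv_mono (hinv y H _ hylo2) hH1
  -- bottom
  have hr1026 : (1026:ℝ) * 2 ^ p1 ≤ L := by exact_mod_cast hn1
  have hal : 2 * (2 ^ (p1 + 9) + 2 ^ p1) ≤ L := by
    have : 2 ^ (p1 + 9) = 512 * 2 ^ p1 := by rw [pow_add]; ring
    omega
  have A0 : Alog B (2 ^ (p1 + 9)) (2 ^ p1) ≤ ((2 ^ p1 : ℕ) : ℝ)
      * (2 * 2 ^ (2 ^ (p1 + 9) + 2 ^ p1) / H
        + C4 * (((2 ^ (p1 + 9) : ℕ) : ℝ) + ((2 ^ p1 : ℕ) : ℝ)) / y ^ δ2) := by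
    refine hbot (2 ^ (p1 + 9)) (2 ^ p1) y H Nat.one_le_two_pow hy hylo ?_
    refine le_trans ?_ hH1
    exact pow_le_pow_right₀ (by norm_num) (by omega)
  have hsmall : 2 * 2 ^ (2 ^ (p1 + 9) + 2 ^ p1) / H ≤ 2 / (L : ℝ) := by
    rw [div_le_div_iff₀ (h2L.trans_le hH1) hL0]
    have e1 : (L : ℝ) ≤ 2 ^ (L / 2) := by exact_mod_cast le_two_pow_half (by omega : 6 ≤ L)
    have e2 : (2:ℝ) ^ (2 ^ (p1 + 9) + 2 ^ p1) * 2 ^ (L / 2) ≤ 2 ^ L := by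
      rw [← pow_add]
      exact pow_le_pow_right₀ (by norm_num) (by omega)
    have e3 : (2:ℝ) ^ (2 ^ (p1 + 9) + 2 ^ p1) * L ≤ 2 ^ (2 ^ (p1 + 9) + 2 ^ p1) * 2 ^ (L / 2) :=
      mul_le_mul_of_nonneg_left e1 (by positivity)
    calc 2 * 2 ^ (2 ^ (p1 + 9) + 2 ^ p1) * (L : ℝ)
        = 2 * (2 ^ (2 ^ (p1 + 9) + 2 ^ p1) * (L : ℝ)) := by ring
      _ ≤ 2 * H := by linarith
  have hfrac : C4 * (((2 ^ (p1 + 9) : ℕ) : ℝ) + ((2 ^ p1 : ℕ) : ℝ)) / y ^ δ2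
      ≤ 513 * C4 * (1 / y ^ c) := by
    have e1 : (((2 ^ (p1 + 9) : ℕ) : ℝ) + ((2 ^ p1 : ℕ) : ℝ)) = 513 * 2 ^ p1 := by
      push_cast
      rw [pow_add]; ring
    rw [e1]
    have e2 : y ^ δ ≤ y ^ δ2 := le_rfl
    have e3 : (2:ℝ) ^ p1 / y ^ δ2 ≤ 1 / y ^ c := by
      calc (2:ℝ) ^ p1 / y ^ δ2 ≤ y ^ (δ / 8) / y ^ δ :=
            div_le_div₀ (by positivity) hq1 (by positivity) e2
        _ = 1 / y ^ (7 * δ / 8) := by
            rw [← Real.rpow_sub hy0, one_div, ← Real.rpow_neg hy0.le]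
            congr 1; ring
        _ ≤ 1 / y ^ c := hpw _ (by rw [hc]; linarith)
    calc C4 * (513 * 2 ^ p1) / y ^ δ2 = 513 * C4 * ((2:ℝ) ^ p1 / y ^ δ2) := by ring
      _ ≤ _ := mul_le_mul_of_nonneg_left e3 (by positivity)
  have hLinv : 1 / (L : ℝ) ≤ 1 / y ^ c := by
    have e1 : y ^ c ≤ y ^ (δ / 2) := Real.rpow_le_rpow_of_exponent_le hy (by rw [hc]; linarith)
    exact one_div_le_one_div_of_le hyc0 (e1.trans hLy.le)
  have A1 : Alog B (2 ^ (p1 + 9)) (2 ^ p1) / 2 ^ p1 ≤ (2 + 513 * C4) * (1 / y ^ c) := by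
    have e1 : (0:ℝ) < 2 ^ p1 := by positivity
    rw [div_le_iff₀ e1]
    refine A0.trans ?_
    have e2 : ((2 ^ p1 : ℕ) : ℝ) = 2 ^ p1 := by push_cast; rfl
    rw [e2, mul_comm]
    refine mul_le_mul_of_nonneg_right ?_ e1.le
    rw [← e2]
    have e3 : 2 / (L : ℝ) = 2 * (1 / L) := by ring
    rw [e3] at hsmall
    calc _ ≤ 2 * (1 / (L:ℝ)) + 513 * C4 * (1 / y ^ c) := add_le_add hsmall hfrac
      _ ≤ _ := by linarith
  -- chain
  have hch := hchain d p1 p L B hpp1 hpp (by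
    have e1 : 2 ^ (p + 10) = 32 * 2 ^ (p + 5) := by rw [pow_add, pow_add]; ring
    omega) inv1
  have hexp : (2 : ℝ) ^ (-(2 / 5 * (p1 : ℝ))) ≤ 2 * (1 / y ^ c) := by
    have e1 : (2:ℝ) ^ (-(2 / 5 * (p1 : ℝ))) = ((2:ℝ) ^ p1) ^ (-(2 / 5) : ℝ) := by
      rw [← Real.rpow_natCast 2 p1, ← Real.rpow_mul (by norm_num)]
      congr 1; ring
    have e2 : y ^ (δ / 8) / 2 ≤ (2:ℝ) ^ p1 := by
      rw [pow_succ] at hq2; linarith
    have e3 : ((2:ℝ) ^ p1) ^ (-(2 / 5) : ℝ) ≤ (y ^ (δ / 8) / 2) ^ (-(2 / 5) : ℝ) :=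
      Real.rpow_le_rpow_of_nonpos (by positivity) e2 (by norm_num)
    have e4 : (y ^ (δ / 8) / 2) ^ (-(2 / 5) : ℝ) = 2 ^ (2 / 5 : ℝ) * (1 / y ^ c) := by
      rw [Real.div_rpow (by positivity) (by norm_num), ← Real.rpow_mul hy0.le,
        Real.rpow_neg (by norm_num : (0:ℝ) ≤ 2), div_inv_eq_mul, one_div, ← Real.rpow_neg hy0.le,
        mul_comm]
      congr 2
      rw [hc]; ring
    have e5 : (2:ℝ) ^ (2 / 5 : ℝ) ≤ 2 := by
      calc (2:ℝ) ^ (2 / 5 : ℝ) ≤ 2 ^ (1:ℝ) :=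
            Real.rpow_le_rpow_of_exponent_le (by norm_num) (by norm_num)
        _ = 2 := Real.rpow_one _
    rw [e1]
    refine e3.trans ?_
    rw [e4]
    exact mul_le_mul_of_nonneg_right e5 (by positivity)
  have A2 : Alog B (2 ^ (p + 10)) (2 ^ p) ≤ 2 ^ p * ((2 + 513 * C4 + 2 * C3) * (1 / y ^ c)) := by
    have e1 : Alog B (2 ^ (p + 10)) (2 ^ p) / 2 ^ p ≤ (2 + 513 * C4 + 2 * C3) * (1 / y ^ c) := by
      have e2 : C3 * (2 : ℝ) ^ (-(2 / 5 * (p1 : ℝ))) ≤ C3 * (2 * (1 / y ^ c)) :=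
        mul_le_mul_of_nonneg_left hexp hC3.le
      linarith
    have e3 : (0:ℝ) < 2 ^ p := by positivity
    rw [div_le_iff₀ e3, mul_comm] at e1
    exact e1
  -- top and dom
  have hto := htop d L p B (by omega) hp1 hp2 inv2
  have hdo := hdom d L B (by omega)
  set N2 : Set ℕ := {N : ℕ | 2 ^ L ≤ N ∧ N < 2 ^ (L + 1) ∧ ∀ i ≤ L, (T d)^[i] N ∈ B} with hN2
  have h2p : (2:ℝ) ^ p ≤ L := by
    have e1 : 2 ^ p ≤ L := by
      have : 10 * 2 ^ (p + 10) = 10240 * 2 ^ p := by rw [pow_add]; ring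
      omega
    exact_mod_cast e1
  have hL35 : (L : ℝ) ^ (3 / 5 : ℝ) / L ≤ 1 / y ^ c := by
    have e1 : (L : ℝ) ^ (3 / 5 : ℝ) / L = 1 / (L : ℝ) ^ (2 / 5 : ℝ) := by
      rw [one_div, ← Real.rpow_neg hL0.le, div_eq_iff hL0.ne', ← Real.rpow_add_one hL0.ne']
      congr 1; norm_num
    rw [e1]
    have e2 : y ^ (δ / 5) ≤ (L : ℝ) ^ (2 / 5 : ℝ) := by
      have e3 : y ^ (δ / 5) = (y ^ (δ / 2)) ^ (2 / 5 : ℝ) := by
        rw [← Real.rpow_mul hy0.le]; congr 1; ring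
      rw [e3]
      exact Real.rpow_le_rpow (by positivity) hLy.le (by norm_num)
    refine (one_div_le_one_div_of_le (by positivity) e2).trans (hpw _ ?_)
    rw [hc]; linarith
  have hmain : (C1 / L) * (1 + Psi d B (L / 20) (84 * L / 100) (5 * L / 100)) ≤ Cb * (1 / y ^ c) := by
    have e1 : Psi d B (L / 20) (84 * L / 100) (5 * L / 100)
        ≤ C2 * (2 ^ p * ((2 + 513 * C4 + 2 * C3) * (1 / y ^ c)) + (L : ℝ) ^ (3 / 5 : ℝ)) :=
      hto.trans (mul_le_mul_of_nonneg_left (by linarith) hC2.le)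
    have e2 : (C1 / L) * (1 + Psi d B (L / 20) (84 * L / 100) (5 * L / 100))
        ≤ (C1 / L) * (1 + C2 * (2 ^ p * ((2 + 513 * C4 + 2 * C3) * (1 / y ^ c))
          + (L : ℝ) ^ (3 / 5 : ℝ))) :=
      mul_le_mul_of_nonneg_left (by linarith) (by positivity)
    have e3 : (2:ℝ) ^ p / L ≤ 1 := by rw [div_le_one hL0]; exact h2p
    have e4 : (C1 / L) * (1 + C2 * (2 ^ p * ((2 + 513 * C4 + 2 * C3) * (1 / y ^ c))
          + (L : ℝ) ^ (3 / 5 : ℝ))) = C1 * (1 / (L:ℝ)) + C1 * C2 * ((L : ℝ) ^ (3 / 5 : ℝ) / L)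
          + C1 * C2 * ((2:ℝ) ^ p / L) * ((2 + 513 * C4 + 2 * C3) * (1 / y ^ c)) := by
      ring
    rw [e4] at e2
    have e5 : C1 * (1 / (L:ℝ)) ≤ C1 * (1 / y ^ c) := mul_le_mul_of_nonneg_left hLinv hC1.le
    have e6 : C1 * C2 * ((L : ℝ) ^ (3 / 5 : ℝ) / L) ≤ C1 * C2 * (1 / y ^ c) :=
      mul_le_mul_of_nonneg_left hL35 (by positivity)
    have e7 : C1 * C2 * ((2:ℝ) ^ p / L) * ((2 + 513 * C4 + 2 * C3) * (1 / y ^ c))
        ≤ C1 * C2 * 1 * ((2 + 513 * C4 + 2 * C3) * (1 / y ^ c)) :=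
      mul_le_mul_of_nonneg_right (mul_le_mul_of_nonneg_left e3 (by positivity)) (by positivity)
    refine e2.trans ?_
    rw [hCb]
    calc _ ≤ C1 * (1 / y ^ c) + C1 * C2 * (1 / y ^ c)
          + C1 * C2 * 1 * ((2 + 513 * C4 + 2 * C3) * (1 / y ^ c)) := by linarith
      _ = _ := by ring
  refine hdo.trans ?_
  rw [mul_assoc]
  exact mul_le_mul_of_nonneg_left hmain h2L.le

end Pool.Agent.Lib.MP_0a5adf_nt.XT
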