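import Pool.Agent.Lib.MP_0a5adf_nt.XT.Walk
import Pool.Agent.Lib.MP_0a5adf_nt.XT.Tail

/-!
Maximum excursions of the 3x+1 map: the limit law.
-/

set_option autoImplicit false

namespace Pool.Agent.Lib.MP_0a5adf_nt.XT

open Finset Filter

/-- The trajectory of `n` falls below `y` before it reaches `lam * n`. -/
def FallsBefore (n : ℕ) (y lam : ℝ) : Prop :=
  ∃ k : ℕ, (T^[k] n : ℝ) < y ∧ ∀ j < k, (T^[j] n : ℝ) < lam * n

theorem T_true : TP.T true = T := by
  funext n
  unfold TP.T T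
  simp

open Classical in
/-- From dyadic blocks to initial segments. -/
theorem sum_blocks (P : ℕ → Prop) (ε : ℝ) (hε : 0 ≤ ε) (L₀ : ℕ) (h : ∀ L, L₀ ≤ L →
    (((Ico (2 ^ L) (2 ^ (L + 1))).filter P).card : ℝ) ≤ ε * 2 ^ L) (N : ℕ) :
    (((range N).filter P).card : ℝ) ≤ 2 ^ L₀ + 2 * ε * N := by
  have hsum : ∀ M, L₀ ≤ M → (((range (2 ^ M)).filter P).card : ℝ) ≤ 2 ^ L₀ + ε * 2 ^ M := by
    intro M hM
    induction M, hM using Nat.le_induction with
    | base =>
      have h1 : ((range (2 ^ L₀)).filter P).card ≤ 2 ^ L₀ := by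
        refine (card_filter_le _ _).trans ?_
        simp
      have h2 : (((range (2 ^ L₀)).filter P).card : ℝ) ≤ 2 ^ L₀ := by
        exact_mod_cast h1
      have : (0 : ℝ) ≤ ε * 2 ^ L₀ := by positivity
      linarith
    | succ M hM ih =>
      have h1 : ((range (2 ^ (M + 1))).filter P) =
          ((range (2 ^ M)).filter P) ∪ ((Ico (2 ^ M) (2 ^ (M + 1))).filter P) := by
        rw [← filter_union]
        congr 1
        ext a
        rw [mem_union, mem_range, mem_range, mem_Ico]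
        have : 2 ^ M ≤ 2 ^ (M + 1) := Nat.pow_le_pow_right (by norm_num) (Nat.le_succ M)
        omega
      have h2 : (((range (2 ^ (M + 1))).filter P).card : ℝ) ≤
          (((range (2 ^ M)).filter P).card : ℝ) +
            (((Ico (2 ^ M) (2 ^ (M + 1))).filter P).card : ℝ) := by
        rw [h1]
        exact_mod_cast card_union_le _ _
      have h3 := h M hM
      have h4 : (2 : ℝ) ^ (M + 1) = 2 ^ M + 2 ^ M := by ring
      rw [h4]
      linarith
  rcases lt_or_ge N (2 ^ L₀) with hN | hN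
  · have h1 : (((range N).filter P).card : ℝ) ≤ N := by
      have : ((range N).filter P).card ≤ N := by
        refine (card_filter_le _ _).trans ?_
        simp
      exact_mod_cast this
    have h2 : (N : ℝ) ≤ 2 ^ L₀ := by exact_mod_cast hN.le
    have h3 : 0 ≤ 2 * ε * N := by positivity
    linarith
  · have hNpos : 0 < N := lt_of_lt_of_le (by positivity) hN
    set M := Nat.log 2 N + 1 with hM
    have hM1 : N < 2 ^ M := Nat.lt_pow_succ_log_self (by norm_num) N
    have hM2 : 2 ^ M ≤ 2 * N := by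
      rw [hM, pow_succ]
      have := Nat.pow_log_le_self 2 hNpos.ne'
      omega
    have hM3 : L₀ ≤ M := by
      have : L₀ ≤ Nat.log 2 N := (Nat.le_log_iff_pow_le (by norm_num) hNpos.ne').2 hN
      omega
    have h1 := hsum M hM3
    have h2 : (((range N).filter P).card : ℝ) ≤ (((range (2 ^ M)).filter P).card : ℝ) := by
      have : ((range N).filter P).card ≤ ((range (2 ^ M)).filter P).card := by
        apply card_le_card
        apply filter_subset_filter
        intro a ha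
        rw [mem_range] at ha ⊢
        omega
      exact_mod_cast this
    have h3 : (2 : ℝ) ^ M ≤ 2 * N := by exact_mod_cast hM2
    have h4 : ε * 2 ^ M ≤ ε * (2 * N) := mul_le_mul_of_nonneg_left h3 hε
    linarith

/-- A high product gives a high term. -/
theorem reach_of_high {K n : ℕ} {lam : ℝ} (h : High K lam (odds K n)) :
    ∃ k ≤ K, lam * n ≤ (T^[k] n : ℝ) := by
  obtain ⟨k, hk, hk2⟩ := h
  rw [odds_filter hk] at hk2
  refine ⟨k, hk, ?_⟩
  have h1 := (bounds k n).1
  have h2 : (3 : ℝ) ^ (odds k n).card * n ≤ 2 ^ k * T^[k] n := by exact_mod_cast h1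
  have h3 : (3 : ℝ) ^ (odds k n).card / 2 ^ k * n ≤ T^[k] n := by
    rw [div_mul_eq_mul_div, div_le_iff₀ (by positivity)]
    linarith
  exact (mul_le_mul_of_nonneg_right hk2 (Nat.cast_nonneg n)).trans h3

/-- The converse, for large numbers. -/
theorem high_of_reach (K : ℕ) (lam : ℝ) : ∃ n₀ : ℕ, ∀ n, n₀ ≤ n →
    (∃ k ≤ K, lam * n ≤ (T^[k] n : ℝ)) → High K lam (odds K n) := by
  have h1 : ∀ᶠ n : ℕ in atTop, ∀ k ∈ range (K + 1), ∀ s ∈ range (K + 1),
      (3 : ℝ) ^ s / 2 ^ k < lam → (3 : ℝ) ^ s / 2 ^ k * n + 3 ^ s < lam * n := by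
    rw [eventually_all_finset]
    intro k _
    rw [eventually_all_finset]
    intro s _
    by_cases hlt : (3 : ℝ) ^ s / 2 ^ k < lam
    · obtain ⟨n₀, hn₀⟩ := exists_nat_gt ((3 : ℝ) ^ s / (lam - 3 ^ s / 2 ^ k))
      filter_upwards [eventually_ge_atTop n₀] with n hn _
      have h2 : (3 : ℝ) ^ s / (lam - 3 ^ s / 2 ^ k) < n :=
        hn₀.trans_le (by exact_mod_cast hn)
      rw [div_lt_iff₀ (by linarith)] at h2
      nlinarith
    · exact Eventually.of_forall fun n h => absurd h hlt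
  obtain ⟨n₀, hn₀⟩ := eventually_atTop.1 h1
  refine ⟨n₀, fun n hn ⟨k, hk, hk2⟩ => ?_⟩
  refine ⟨k, hk, ?_⟩
  rw [odds_filter hk]
  by_contra hlt
  push Not at hlt
  have hs : (odds k n).card ≤ K := by
    have : (odds k n).card ≤ (range k).card := card_le_card (filter_subset _ _)
    rw [card_range] at this
    omega
  have h2 := hn₀ n hn k (mem_range.2 (by omega)) (odds k n).card (mem_range.2 (by omega)) hlt
  have h3 := (bounds k n).2
  have h4 : (2 : ℝ) ^ k * (T^[k] n + 1) ≤ 3 ^ (odds k n).card * (n + 2 ^ k) := by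
    exact_mod_cast h3
  have h5 : (T^[k] n : ℝ) + 1 ≤ 3 ^ (odds k n).card / 2 ^ k * n + 3 ^ (odds k n).card := by
    have h6 : (3 : ℝ) ^ (odds k n).card / 2 ^ k * n + 3 ^ (odds k n).card =
        3 ^ (odds k n).card * (n + 2 ^ k) / 2 ^ k := by field_simp
    rw [h6, le_div_iff₀ (by positivity)]
    linarith
  linarith

open Classical in
/-- Density of the periodic set. -/
theorem card_periodic (K N : ℕ) (lam : ℝ) :
    |(((range N).filter fun n => High K lam (odds K n)).card : ℝ) - walk K lam * N| ≤ 2 ^ K := by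
  have hper : Function.Periodic (fun n => High K lam (odds K n)) (2 ^ K) := by
    intro n
    simp only [odds_periodic]
  set c := ((range K).powerset.filter fun A => High K lam A).card with hc
  have hw : walk K lam * 2 ^ K = c := by
    unfold walk
    rw [div_mul_cancel₀ _ (by positivity)]
  have hmain : ∀ q : ℕ, ((range (2 ^ K * q)).filter fun n => High K lam (odds K n)).card =
      q * c := by
    intro q
    induction q with
    | zero => simp
    | succ q ih =>
      have h1 : range (2 ^ K * (q + 1)) = range (2 ^ K * q) ∪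
          Ico (2 ^ K * q) (2 ^ K * q + 2 ^ K) := by
        rw [range_eq_Ico, range_eq_Ico,
          Ico_union_Ico_eq_Ico (Nat.zero_le _) (Nat.le_add_right _ _)]
        congr 1
      rw [h1, filter_union, card_union_of_disjoint, ih]
      · rw [Nat.filter_Ico_card_eq_of_periodic _ _ _ hper, Nat.count_eq_card_filter_range]
        rw [card_odds K (fun A => High K lam A)]
        ring
      · refine disjoint_filter_filter ?_
        rw [Finset.disjoint_left]
        intro x hx hx'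
        rw [mem_range] at hx
        rw [mem_Ico] at hx'
        omega
  set q := N / 2 ^ K with hq
  have hp : 0 < 2 ^ K := by positivity
  have hq1 : 2 ^ K * q ≤ N := Nat.mul_div_le N (2 ^ K)
  have hq2 : N < 2 ^ K * (q + 1) := by
    have := Nat.lt_mul_div_succ N hp
    simpa using this
  have h1 : q * c ≤ ((range N).filter fun n => High K lam (odds K n)).card := by
    rw [← hmain q]
    exact card_le_card (filter_subset_filter _ (range_subset_range.2 hq1))
  have h2 : ((range N).filter fun n => High K lam (odds K n)).card ≤ (q + 1) * c := by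
    rw [← hmain (q + 1)]
    exact card_le_card (filter_subset_filter _ (range_subset_range.2 hq2.le))
  have h1' : (q : ℝ) * c ≤ (((range N).filter fun n => High K lam (odds K n)).card : ℝ) := by
    exact_mod_cast h1
  have h2' : (((range N).filter fun n => High K lam (odds K n)).card : ℝ) ≤ (q + 1) * c := by
    exact_mod_cast h2
  rw [← hw] at h1' h2'
  have hq1' : (2 : ℝ) ^ K * q ≤ N := by exact_mod_cast hq1
  have hq2' : (N : ℝ) < 2 ^ K * (q + 1) := by exact_mod_cast hq2
  have hw0 := walk_nonneg K lam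
  have hw1 := walk_le_one K lam
  have hp' : (0 : ℝ) < 2 ^ K := by positivity
  rw [abs_le]
  constructor
  · -- lower
    have h3 : walk K lam * N ≤ walk K lam * (2 ^ K * (q + 1)) :=
      mul_le_mul_of_nonneg_left hq2'.le hw0
    have h4 : walk K lam * 2 ^ K ≤ 1 * 2 ^ K := mul_le_mul_of_nonneg_right hw1 hp'.le
    nlinarith
  · have h3 : walk K lam * (2 ^ K * q) ≤ walk K lam * N :=
      mul_le_mul_of_nonneg_left hq1' hw0
    have h4 : walk K lam * 2 ^ K ≤ 1 * 2 ^ K := mul_le_mul_of_nonneg_right hw1 hp'.le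
    nlinarith

/-- For every `ε`, for large `y` and `K`, in the large dyadic blocks almost all the numbers that do
not fall below `y` before reaching `lam n` have a high product. -/
theorem block_upper (lam ε : ℝ) (hlam : 1 ≤ lam) (hε : 0 < ε) :
    ∃ (y : ℝ) (K₀ : ℕ), ∀ K, K₀ ≤ K → ∃ L₀ : ℕ, ∀ L, L₀ ≤ L →
      ({n : ℕ | 2 ^ L ≤ n ∧ n < 2 ^ (L + 1) ∧ ¬ FallsBefore n y lam ∧
        ¬ High K lam (odds K n)}.ncard : ℝ) ≤ ε * 2 ^ L := by
  classical
  obtain ⟨c, C, Y0, hc, hC, hY0, htail⟩ := tail_bad TP.domT TP.topT TP.chainT true (TP.bottomT true)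
  obtain ⟨-, hcov, -⟩ := TP.bottomT true
  -- choice of `y`
  have h1 : Tendsto (fun y : ℝ => C * (1 / y ^ c)) atTop (nhds (C * 0)) := by
    refine Tendsto.const_mul C ?_
    exact tendsto_const_nhds.div_atTop (tendsto_rpow_atTop hc)
  rw [mul_zero] at h1
  obtain ⟨y, hy1, hy2⟩ := ((h1.eventually_le_const (by positivity : 0 < ε / 2)).and
    (eventually_ge_atTop Y0)).exists
  obtain ⟨L₁, hL₁⟩ := htail y hy2
  -- choice of `K₀`
  have hr0 := rho_pos
  have hr1 := rho_lt
  have h2 : Tendsto (fun K : ℕ => √2 * rho ^ (K + 1) / (1 - rho)) atTop (nhds 0) := by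
    have h3 : Tendsto (fun K : ℕ => rho ^ (K + 1)) atTop (nhds 0) :=
      (tendsto_pow_atTop_nhds_zero_of_lt_one hr0.le hr1).comp (tendsto_add_atTop_nat 1)
    have h4 := (h3.const_mul √2).div_const (1 - rho)
    simpa using h4
  obtain ⟨K₀, hK₀⟩ := eventually_atTop.1 (h2.eventually_le_const (by positivity : 0 < ε / 2))
  refine ⟨y, K₀, fun K hK => ?_⟩
  obtain ⟨n₀, hn₀⟩ := high_of_reach K lam
  refine ⟨max L₁ n₀, fun L hL => ?_⟩
  have hL1 : L₁ ≤ L := le_trans (le_max_left _ _) hL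
  have hL2 : n₀ ≤ L := le_trans (le_max_right _ _) hL
  set A := (Ico (2 ^ L) (2 ^ (L + 1))).filter
    fun n : ℕ => ∃ k, K < k ∧ k ≤ L ∧ lam * n ≤ (T^[k] n : ℝ) with hA
  set B := {N : ℕ | 2 ^ L ≤ N ∧ N < 2 ^ (L + 1) ∧
    ∀ i ≤ L, (TP.T true)^[i] N ∈ TP.Bad true y (lam * 2 ^ L)} with hB
  have hBfin : B.Finite := (Set.finite_Iio (2 ^ (L + 1))).subset fun n hn => hn.2.1
  have hsub : {n : ℕ | 2 ^ L ≤ n ∧ n < 2 ^ (L + 1) ∧ ¬ FallsBefore n y lam ∧
      ¬ High K lam (odds K n)} ⊆ (A : Set ℕ) ∪ B := by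
    rintro n ⟨hn1, hn2, hn3, hn4⟩
    have hF : n ∈ TP.Fail true L y lam := by
      refine ⟨hn1, hn2, ?_⟩
      rw [T_true]
      exact hn3
    rcases hcov L y lam (by linarith) hF with ⟨h5, h6, k, hk, hk2⟩ | h5
    · left
      rw [T_true] at hk2
      rw [hA]
      simp only [coe_filter, mem_Ico, Set.mem_ofPred_eq]
      refine ⟨⟨hn1, hn2⟩, k, ?_, hk, hk2⟩
      by_contra hkK
      push Not at hkK
      refine hn4 (hn₀ n ?_ ⟨k, hkK, hk2⟩)
      have : L < 2 ^ L := Nat.lt_two_pow_self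
      omega
    · right
      exact h5
  have h3 := Set.ncard_le_ncard hsub ((Finset.finite_toSet A).union hBfin)
  have h4 := Set.ncard_union_le (A : Set ℕ) B
  rw [Set.ncard_coe_finset] at h4
  have h5 : ({n : ℕ | 2 ^ L ≤ n ∧ n < 2 ^ (L + 1) ∧ ¬ FallsBefore n y lam ∧
      ¬ High K lam (odds K n)}.ncard : ℝ) ≤ (A.card : ℝ) + B.ncard := by
    exact_mod_cast h3.trans h4
  have h6 := card_late K L lam hlam
  have h7 := hL₁ L lam hL1 hlam
  have h8 := hK₀ K hK
  have h2L : (0 : ℝ) < 2 ^ L := by positivity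
  have h9 : (2 : ℝ) ^ L * (√2 * rho ^ (K + 1) / (1 - rho)) ≤ 2 ^ L * (ε / 2) :=
    mul_le_mul_of_nonneg_left h8 h2L.le
  have h10 : (2 : ℝ) ^ L * (C * (1 / y ^ c)) ≤ 2 ^ L * (ε / 2) :=
    mul_le_mul_of_nonneg_left hy1 h2L.le
  have h11 : (A.card : ℝ) ≤ 2 ^ L * (√2 * rho ^ (K + 1) / (1 - rho)) := by
    rw [hA]; convert h6
  calc _ ≤ (A.card : ℝ) + B.ncard := h5
    _ ≤ 2 ^ L * (ε / 2) + 2 ^ L * (ε / 2) := by linarith
    _ = _ := by ring

open Classical in
/-- **The limit law**, general form. -/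
theorem dens (S : ℕ → Prop) (lam : ℝ) (hlam : 1 ≤ lam)
    (hlow : ∀ K, ∃ n₀ : ℕ, ∀ n, n₀ ≤ n → High K lam (odds K n) → S n)
    (hup : ∀ y : ℝ, ∃ n₀ : ℕ, ∀ n, n₀ ≤ n → S n → ¬ FallsBefore n y lam) :
    Tendsto (fun N : ℕ => (((range N).filter S).card : ℝ) / N) atTop (nhds (F lam)) := by
  rw [Metric.tendsto_atTop]
  intro ε hε
  obtain ⟨y, K₀, hK₀⟩ := block_upper lam (ε / 8) hlam (by positivity)
  have h1 := (walk_tendsto lam).eventually (Metric.ball_mem_nhds (F lam) (by positivity : 0 < ε / 4))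
  obtain ⟨K, hK1, hK2⟩ := (h1.and (eventually_ge_atTop K₀)).exists
  have hK1' : |walk K lam - F lam| < ε / 4 := by
    rw [← Real.dist_eq]; exact hK1
  obtain ⟨L₀, hL₀⟩ := hK₀ K hK2
  obtain ⟨n₁, hn₁⟩ := hlow K
  obtain ⟨n₂, hn₂⟩ := hup y
  set L₁ := max L₀ n₂ with hL₁
  obtain ⟨R, hR⟩ : ∃ R : ℕ → Prop, ∀ n, R n ↔ S n ∧ ¬ High K lam (odds K n) := ⟨_, fun _ => Iff.rfl⟩
  have hblock : ∀ L, L₁ ≤ L → (((Ico (2 ^ L) (2 ^ (L + 1))).filter R).card : ℝ) ≤
      ε / 8 * 2 ^ L := by
    intro L hL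
    refine le_trans ?_ (hL₀ L (le_trans (le_max_left _ _) hL))
    rw [← Set.ncard_coe_finset]
    have h2 : (((Ico (2 ^ L) (2 ^ (L + 1))).filter R : Finset ℕ) : Set ℕ) ⊆
        {n : ℕ | 2 ^ L ≤ n ∧ n < 2 ^ (L + 1) ∧ ¬ FallsBefore n y lam ∧
          ¬ High K lam (odds K n)} := by
      intro n hn
      simp only [coe_filter, mem_Ico, Set.mem_ofPred_eq, hR] at hn
      refine ⟨hn.1.1, hn.1.2, hn₂ n ?_ hn.2.1, hn.2.2⟩
      have h3 : L < 2 ^ L := Nat.lt_two_pow_self
      have h4 : n₂ ≤ L := le_trans (le_max_right _ _) hL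
      omega
    exact_mod_cast Set.ncard_le_ncard h2 ((Set.finite_Iio (2 ^ (L + 1))).subset fun n hn => hn.2.1)
  have hsum := sum_blocks R (ε / 8) (by positivity) L₁ hblock
  obtain ⟨N₀, hN₀⟩ := exists_nat_gt (((2 : ℝ) ^ K + n₁ + 2 ^ L₁) * (4 / ε))
  refine ⟨N₀ + 1, fun N hN => ?_⟩
  have hN1 : (N₀ : ℝ) ≤ N := by exact_mod_cast (by omega : N₀ ≤ N)
  have hN0 : (0 : ℝ) < N := by exact_mod_cast (by omega : 0 < N)
  have hN2 : (2 : ℝ) ^ K + n₁ + 2 ^ L₁ < ε / 4 * N := by
    have h2 : ((2 : ℝ) ^ K + n₁ + 2 ^ L₁) * (4 / ε) < N := hN₀.trans_le hN1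
    have h3 : ((2 : ℝ) ^ K + n₁ + 2 ^ L₁) * (4 / ε) * (ε / 4) = (2 : ℝ) ^ K + n₁ + 2 ^ L₁ := by
      field_simp
    calc (2 : ℝ) ^ K + n₁ + 2 ^ L₁ = ((2 : ℝ) ^ K + n₁ + 2 ^ L₁) * (4 / ε) * (ε / 4) := h3.symm
      _ < N * (ε / 4) := mul_lt_mul_of_pos_right h2 (by positivity)
      _ = _ := by ring
  have hper := card_periodic K N lam
  rw [abs_le] at hper
  obtain ⟨hp1, hp2⟩ := hper
  -- upper bound
  have hupp : (((range N).filter S).card : ℝ) ≤
      (((range N).filter fun n => High K lam (odds K n)).card : ℝ) +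
        (((range N).filter R).card : ℝ) := by
    have : ((range N).filter S).card ≤
        ((range N).filter fun n => High K lam (odds K n)).card +
          ((range N).filter R).card := by
      refine le_trans (card_le_card ?_) (card_union_le _ _)
      intro n hn
      rw [mem_filter] at hn
      rw [mem_union, mem_filter, mem_filter]
      by_cases h : High K lam (odds K n)
      · left; exact ⟨hn.1, h⟩
      · right; exact ⟨hn.1, (hR n).2 ⟨hn.2, h⟩⟩
    exact_mod_cast this
  have hloww : (((range N).filter fun n => High K lam (odds K n)).card : ℝ) ≤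
      (((range N).filter S).card : ℝ) + n₁ := by
    have : ((range N).filter fun n => High K lam (odds K n)).card ≤
        ((range N).filter S).card + n₁ := by
      have h2 : ((range N).filter fun n => High K lam (odds K n)) ⊆
          ((range N).filter S) ∪ range n₁ := by
        intro n hn
        rw [mem_filter] at hn
        rw [mem_union, mem_filter]
        by_cases h : n < n₁
        · right; exact mem_range.2 h
        · left; exact ⟨hn.1, hn₁ n (by omega) hn.2⟩
      refine (card_le_card h2).trans ((card_union_le _ _).trans ?_)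
      rw [card_range]
    exact_mod_cast this
  have hs := hsum N
  have h2K : (0 : ℝ) < 2 ^ K := by positivity
  have h2L : (0 : ℝ) < 2 ^ L₁ := by positivity
  have hn10 : (0 : ℝ) ≤ n₁ := Nat.cast_nonneg _
  rw [abs_lt] at hK1'
  obtain ⟨hw1, hw2⟩ := hK1'
  rw [Real.dist_eq, abs_lt]
  have hw1N : (F lam - ε / 4) * N ≤ walk K lam * N :=
    mul_le_mul_of_nonneg_right (by linarith) hN0.le
  have hw2N : walk K lam * N ≤ (F lam + ε / 4) * N :=
    mul_le_mul_of_nonneg_right (by linarith) hN0.le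
  have hεN : 0 < ε * N := by positivity
  constructor
  · rw [lt_sub_iff_add_lt, lt_div_iff₀ hN0]
    nlinarith
  · rw [sub_lt_iff_lt_add, div_lt_iff₀ hN0]
    nlinarith

end Pool.Agent.Lib.MP_0a5adf_nt.XT
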