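import Pool.Agent.Lib.MP_0a5adf_nt.XT.Walk
import Pool.Agent.Lib.MP_0a5adf_nt.H89.Final

/-!
Maximum excursions of the 3x+1 map: the order of magnitude of the tail of the limit law.
-/

set_option autoImplicit false

namespace Pool.Agent.Lib.MP_0a5adf_nt.XT

open Finset Filter

theorem high_zero (lam : ℝ) (A : Finset ℕ) : High 0 lam A ↔ lam ≤ 1 := by
  unfold High
  constructor
  · rintro ⟨k, hk, h⟩
    have : k = 0 := by omega
    subst this
    simpa using h
  · intro h
    exact ⟨0, le_rfl, by simpa using h⟩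

theorem high_succ {K : ℕ} {lam : ℝ} {A : Finset ℕ} (hA : A ⊆ range (K + 1)) :
    High (K + 1) lam A ↔ High K lam (A.filter (· < K)) ∨ lam ≤ (3 : ℝ) ^ A.card / 2 ^ (K + 1) := by
  have h1 : ∀ k, k ≤ K → (A.filter (· < K)).filter (· < k) = A.filter (· < k) := by
    intro k hk
    ext i
    simp only [mem_filter]
    constructor
    · rintro ⟨⟨h1, h2⟩, h3⟩; exact ⟨h1, h3⟩
    · rintro ⟨h1, h2⟩; exact ⟨⟨h1, by omega⟩, h2⟩
  have h2 : A.filter (· < K + 1) = A := by
    apply filter_true_of_mem
    intro i hi
    exact mem_range.1 (hA hi)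
  constructor
  · rintro ⟨k, hk, h⟩
    rcases Nat.lt_or_ge K k with h3 | h3
    · have : k = K + 1 := by omega
      subst this
      right
      rwa [h2] at h
    · left
      refine ⟨k, h3, ?_⟩
      rwa [h1 k h3]
  · rintro (⟨k, hk, h⟩ | h)
    · refine ⟨k, by omega, ?_⟩
      rwa [h1 k hk] at h
    · exact ⟨K + 1, le_rfl, by rwa [h2]⟩

open Classical in
/-- The maximal inequality. -/
theorem maximal (lam : ℝ) (hlam : 0 ≤ lam) (K : ℕ) :
    ∑ A ∈ (range K).powerset, (if High K lam A then lam * 2 ^ K else (3 : ℝ) ^ A.card) ≤ 4 ^ K := by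
  induction K with
  | zero =>
    simp only [range_zero, powerset_empty, sum_singleton, high_zero]
    split_ifs with h
    · simpa using h
    · simp
  | succ K ih =>
    have hstep : ∑ A ∈ (range (K + 1)).powerset,
        (if High (K + 1) lam A then lam * 2 ^ (K + 1) else (3 : ℝ) ^ A.card) ≤
        ∑ A ∈ (range K).powerset, 4 * (if High K lam A then lam * 2 ^ K else (3 : ℝ) ^ A.card) := by
      rw [range_add_one, sum_powerset_insert (by simp), ← sum_add_distrib]
      refine sum_le_sum fun A hA => ?_
      rw [mem_powerset] at hA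
      have hK : K ∉ A := fun h => by simpa using hA h
      have hf1 : A.filter (· < K) = A := filter_true_of_mem fun i hi => mem_range.1 (hA hi)
      have hf2 : (insert K A).filter (· < K) = A := by
        rw [filter_insert, if_neg (lt_irrefl K), hf1]
      have hs1 : A ⊆ range (K + 1) := hA.trans (range_subset_range.2 (Nat.le_succ K))
      have hs2 : insert K A ⊆ range (K + 1) := by
        rw [range_add_one]; exact insert_subset_insert K hA
      have e1 := high_succ (lam := lam) hs1
      have e2 := high_succ (lam := lam) hs2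
      rw [hf1] at e1
      rw [hf2] at e2
      have hc : (insert K A).card = A.card + 1 := card_insert_of_notMem hK
      have hp : (0 : ℝ) < 3 ^ A.card := by positivity
      have h2p : (0 : ℝ) < 2 ^ (K + 1) := by positivity
      by_cases h : High K lam A
      · rw [if_pos (e1.2 (Or.inl h)), if_pos (e2.2 (Or.inl h)), if_pos h]
        rw [pow_succ]; linarith
      · rw [if_neg h]
        have b1 : (if High (K + 1) lam A then lam * 2 ^ (K + 1) else (3 : ℝ) ^ A.card) ≤
            3 ^ A.card := by
          split_ifs with h3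
          · rcases e1.1 h3 with h4 | h4
            · exact absurd h4 h
            · rwa [le_div_iff₀ h2p] at h4
          · exact le_rfl
        have b2 : (if High (K + 1) lam (insert K A) then lam * 2 ^ (K + 1)
            else (3 : ℝ) ^ (insert K A).card) ≤ 3 ^ (A.card + 1) := by
          split_ifs with h3
          · rcases e2.1 h3 with h4 | h4
            · exact absurd h4 h
            · rwa [le_div_iff₀ h2p, hc] at h4
          · rw [hc]
        have b3 : (3 : ℝ) ^ (A.card + 1) = 3 * 3 ^ A.card := by ring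
        rw [b3] at b2
        linarith
    refine hstep.trans ?_
    rw [← mul_sum, pow_succ]
    linarith

open Classical in
theorem walk_le (K : ℕ) (lam : ℝ) (hlam : 0 < lam) : walk K lam ≤ 1 / lam := by
  have h1 := maximal lam hlam.le K
  have h2 : ((((range K).powerset.filter fun A => High K lam A).card : ℕ) : ℝ) * (lam * 2 ^ K) ≤
      4 ^ K := by
    refine le_trans ?_ h1
    rw [← nsmul_eq_mul, ← sum_const, sum_filter]
    refine sum_le_sum fun A _ => ?_
    split_ifs with h
    · exact le_rfl
    · positivity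
  unfold walk
  rw [div_le_div_iff₀ (by positivity) hlam]
  have h3 : (4 : ℝ) ^ K = 2 ^ K * 2 ^ K := by rw [← mul_pow]; norm_num
  have h4 : (0 : ℝ) < 2 ^ K := by positivity
  rw [h3] at h2
  rw [one_mul]
  refine le_of_mul_le_mul_right ?_ h4
  linarith

theorem F_le (lam : ℝ) (hlam : 0 < lam) : F lam ≤ 1 / lam := ciSup_le fun K => walk_le K lam hlam

open Classical in
/-- The lower bound for the tail. -/
theorem le_F : ∃ c : ℝ, 0 < c ∧ ∀ lam : ℝ, 1 ≤ lam → c / lam ≤ F lam := by
  obtain ⟨c, hc, hT⟩ := H89.tail_order (1 / 6) H89.one_sixth_lt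
  refine ⟨c / 2, by positivity, fun lam hlam => ?_⟩
  have h1 : Tendsto (fun L : ℕ => (2 : ℝ) ^ (1 / 6 * (L : ℝ))) atTop atTop := by
    have h2 : Tendsto (fun L : ℕ => (1 / 6 : ℝ) * (L : ℝ)) atTop atTop :=
      tendsto_natCast_atTop_atTop.const_mul_atTop (by norm_num)
    exact (tendsto_rpow_atTop_of_base_gt_one 2 (by norm_num)).comp h2
  obtain ⟨L, hL⟩ := (h1.eventually_ge_atTop (2 * lam)).exists
  have h2 := (hT L (2 * lam) (by linarith) hL).1
  have h3 : H89.Reach L (2 * lam) ⊆
      (((Ico (2 ^ L) (2 ^ (L + 1))).filter fun n => High L lam (odds L n) : Finset ℕ) : Set ℕ) := by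
    rintro n ⟨h5, h6, k, hk, h7⟩
    simp only [coe_filter, mem_Ico, Set.mem_ofPred_eq]
    refine ⟨⟨h5, h6⟩, k, hk, ?_⟩
    rw [odds_filter hk]
    have hTT : H89.T = T := rfl
    rw [hTT] at h7
    have h8 := (bounds k n).2
    have h4 : 2 ^ k ≤ n := (Nat.pow_le_pow_right (by norm_num) hk).trans h5
    have hn0 : (0 : ℝ) < n := by
      have : 0 < n := lt_of_lt_of_le (by positivity) h5
      exact_mod_cast this
    have h9 : (2 : ℝ) ^ k * (T^[k] n + 1) ≤ 3 ^ (odds k n).card * (n + 2 ^ k) := by
      exact_mod_cast h8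
    have h10 : (2 : ℝ) ^ k ≤ n := by exact_mod_cast h4
    have h11 : (0 : ℝ) < 3 ^ (odds k n).card := by positivity
    have h12 : (0 : ℝ) < 2 ^ k := by positivity
    rw [le_div_iff₀ h12]
    have h13 : lam * 2 ^ k * (2 * n) ≤ 3 ^ (odds k n).card * (2 * n) := by
      calc lam * 2 ^ k * (2 * n) = 2 ^ k * (2 * lam * n) := by ring
        _ ≤ 2 ^ k * (T^[k] n + 1) := mul_le_mul_of_nonneg_left (by linarith) h12.le
        _ ≤ 3 ^ (odds k n).card * (n + 2 ^ k) := h9
        _ ≤ _ := mul_le_mul_of_nonneg_left (by linarith) h11.le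
    exact le_of_mul_le_mul_right h13 (by positivity)
  have h4 := Set.ncard_le_ncard h3 (Finset.finite_toSet _)
  rw [Set.ncard_coe_finset, card_block L L le_rfl (fun A => High L lam A)] at h4
  simp only [Nat.sub_self, pow_zero, one_mul] at h4
  refine le_trans ?_ (walk_le_F L lam)
  unfold walk
  rw [div_div, div_le_div_iff₀ (by positivity) (by positivity)]
  have h5 : ((H89.Reach L (2 * lam)).ncard : ℝ) ≤
      (((range L).powerset.filter fun A => High L lam A).card : ℝ) := by exact_mod_cast h4
  have h6 := h2.trans h5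
  rw [div_le_iff₀ (by positivity)] at h6
  linarith

end Pool.Agent.Lib.MP_0a5adf_nt.XT
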