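import Pool.Agent.Lib.MP_0a5adf_nt.XT.Transfer
import Pool.Agent.Lib.MP_0a5adf_nt.XT.Law
import Pool.Agent.Lib.MP_0a5adf_nt.XT.MaxIneq

/-!
Maximum excursions of the 3x+1 map: the dichotomy and the hereditary form of Q1.
-/

set_option autoImplicit false

namespace Pool.Agent.Lib.MP_0a5adf_nt.XT

open Finset Filter Pool.Agent.Lib.MP_edb5be_nt.EX Pool.Agent.Lib.MP_edb5be_nt

theorem ceil_le_t {h : ℝ} {n : ℕ} : ((⌈h⌉₊ : ℕ) : ℕ∞) ≤ t n ↔ ∃ k, h ≤ (T^[k] n : ℝ) := by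
  constructor
  · intro hh
    by_contra hcon
    push Not at hcon
    have hn0 : (0 : ℝ) ≤ (T^[0] n : ℝ) := Nat.cast_nonneg _
    have hpos : 0 < h := hn0.trans_lt (hcon 0)
    have hc1 : 1 ≤ ⌈h⌉₊ := Nat.one_le_iff_ne_zero.2 (Nat.ceil_pos.2 hpos).ne'
    have h1 : t n ≤ ((⌈h⌉₊ - 1 : ℕ) : ℕ∞) := by
      refine iSup_le fun k => ?_
      have h2 : T^[k] n < ⌈h⌉₊ := Nat.lt_ceil.2 (hcon k)
      exact_mod_cast (by omega : T^[k] n ≤ ⌈h⌉₊ - 1)
    have h2 := hh.trans h1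
    have h3 : ⌈h⌉₊ ≤ ⌈h⌉₊ - 1 := by exact_mod_cast h2
    omega
  · rintro ⟨k, hk⟩
    have h1 : ⌈h⌉₊ ≤ T^[k] n := Nat.ceil_le.2 hk
    exact le_trans (by exact_mod_cast h1) (le_t n k)

/-- If all trajectories are bounded, a trajectory that falls below `y` before reaching `lam * n`
never reaches `lam * n`, for large `n`. -/
theorem exists_bound (hb : ∀ n, t n ≠ ⊤) (y lam : ℝ) (hlam : 1 ≤ lam) :
    ∃ n₀ : ℕ, ∀ n : ℕ, n₀ ≤ n → (∃ k, lam * n ≤ (T^[k] n : ℝ)) → ¬ FallsBefore n y lam := by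
  have hb' : ∀ n, ∃ R : ℕ, ∀ k, T^[k] n ≤ R := by
    intro n
    obtain ⟨R, hR⟩ := ENat.ne_top_iff_exists.1 (hb n)
    refine ⟨R, fun k => ?_⟩
    have := le_t n k
    rw [← hR] at this
    exact_mod_cast this
  choose R hR using hb'
  obtain ⟨m₀, hm₀⟩ := exists_nat_gt y
  refine ⟨∑ m ∈ range (m₀ + 1), R m + 1, fun n hn ⟨k, hk⟩ ⟨k₀, h1, h2⟩ => ?_⟩
  rcases Nat.lt_or_ge k k₀ with h3 | h3
  · have := h2 k h3
    linarith
  · obtain ⟨e, rfl⟩ := Nat.exists_eq_add_of_le h3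
    set m := T^[k₀] n with hm
    have h4 : m < m₀ + 1 := by
      have : (m : ℝ) < m₀ := lt_trans h1 hm₀
      have : m < m₀ := by exact_mod_cast this
      omega
    have h5 : T^[k₀ + e] n ≤ R m := by
      rw [add_comm, Function.iterate_add_apply]
      exact hR m e
    have h6 : R m ≤ ∑ m ∈ range (m₀ + 1), R m :=
      single_le_sum (f := R) (fun _ _ => Nat.zero_le _) (mem_range.2 h4)
    have h7 : T^[k₀ + e] n < n := by omega
    have h8 : (T^[k₀ + e] n : ℝ) < n := by exact_mod_cast h7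
    have h9 : (0 : ℝ) ≤ n := Nat.cast_nonneg n
    nlinarith

open Classical in
/-- From `range` to `1 ≤ n ≤ X`. -/
theorem dens_shift (S : ℕ → Prop) (D : ℝ)
    (h : Tendsto (fun N : ℕ => (((range N).filter S).card : ℝ) / N) atTop (nhds D)) :
    Tendsto (fun X : ℕ => ({n : ℕ | 1 ≤ n ∧ n ≤ X ∧ S n}.ncard : ℝ) / X) atTop (nhds D) := by
  have h0 : Tendsto (fun N : ℕ => (1 : ℝ) / N) atTop (nhds 0) := tendsto_one_div_atTop_nhds_zero_nat
  have hlow : Tendsto (fun N : ℕ => (((range N).filter S).card : ℝ) / N - 1 / N) atTop (nhds D) := by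
    simpa using h.sub h0
  have hupp : Tendsto (fun N : ℕ => (((range N).filter S).card : ℝ) / N + 1 / N) atTop (nhds D) := by
    simpa using h.add h0
  refine tendsto_of_tendsto_of_tendsto_of_le_of_le hlow hupp (fun N => ?_) (fun N => ?_)
  · -- lower
    have h1 : ((range N).filter S).card ≤ {n : ℕ | 1 ≤ n ∧ n ≤ N ∧ S n}.ncard + 1 := by
      have h2 : (range N).filter S ⊆ insert 0 (((Icc 1 N).filter S)) := by
        intro n hn
        rw [mem_filter, mem_range] at hn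
        rw [mem_insert, mem_filter, mem_Icc]
        by_cases h : n = 0
        · left; exact h
        · right; exact ⟨⟨by omega, by omega⟩, hn.2⟩
      have h3 : {n : ℕ | 1 ≤ n ∧ n ≤ N ∧ S n} = (((Icc 1 N).filter S : Finset ℕ) : Set ℕ) := by
        ext n; simp [and_assoc]
      rw [h3, Set.ncard_coe_finset]
      exact (card_le_card h2).trans (card_insert_le _ _)
    have h1' : (((range N).filter S).card : ℝ) ≤ {n : ℕ | 1 ≤ n ∧ n ≤ N ∧ S n}.ncard + 1 := by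
      exact_mod_cast h1
    show (((range N).filter S).card : ℝ) / N - 1 / N ≤ ({n : ℕ | 1 ≤ n ∧ n ≤ N ∧ S n}.ncard : ℝ) / N
    rw [← sub_div]
    exact div_le_div_of_nonneg_right (by linarith) (Nat.cast_nonneg N)
  · have h1 : {n : ℕ | 1 ≤ n ∧ n ≤ N ∧ S n}.ncard ≤ ((range N).filter S).card + 1 := by
      have h2 : (Icc 1 N).filter S ⊆ insert N ((range N).filter S) := by
        intro n hn
        rw [mem_filter, mem_Icc] at hn
        rw [mem_insert, mem_filter, mem_range]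
        by_cases h : n = N
        · left; exact h
        · right; exact ⟨by omega, hn.2⟩
      have h3 : {n : ℕ | 1 ≤ n ∧ n ≤ N ∧ S n} = (((Icc 1 N).filter S : Finset ℕ) : Set ℕ) := by
        ext n; simp [and_assoc]
      rw [h3, Set.ncard_coe_finset]
      exact (card_le_card h2).trans (card_insert_le _ _)
    have h1' : ({n : ℕ | 1 ≤ n ∧ n ≤ N ∧ S n}.ncard : ℝ) ≤ (((range N).filter S).card : ℝ) + 1 := by
      exact_mod_cast h1
    show ({n : ℕ | 1 ≤ n ∧ n ≤ N ∧ S n}.ncard : ℝ) / N ≤ (((range N).filter S).card : ℝ) / N + 1 / N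
    rw [← add_div]
    exact div_le_div_of_nonneg_right (by linarith) (Nat.cast_nonneg N)

/-- **The limit law** of `t(n) / n`, if all trajectories are bounded. -/
theorem limit_law (hb : ∀ n, t n ≠ ⊤) (lam : ℝ) (hlam : 1 ≤ lam) :
    Tendsto (fun X : ℕ => ({n : ℕ | 1 ≤ n ∧ n ≤ X ∧ ((⌈lam * n⌉₊ : ℕ) : ℕ∞) ≤ t n}.ncard : ℝ) / X)
      atTop (nhds (F lam)) := by
  classical
  have h1 := dens (fun n => ((⌈lam * n⌉₊ : ℕ) : ℕ∞) ≤ t n) lam hlam
    (fun K => ⟨0, fun n _ h => by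
      obtain ⟨k, _, hk⟩ := reach_of_high h
      exact ceil_le_t.2 ⟨k, hk⟩⟩)
    (fun y => by
      obtain ⟨n₀, hn₀⟩ := exists_bound hb y lam hlam
      exact ⟨n₀, fun n hn h => hn₀ n hn (ceil_le_t.1 h)⟩)
  exact dens_shift (fun n => ((⌈lam * n⌉₊ : ℕ) : ℕ∞) ≤ t n) (F lam) h1

/-- **The limit law**, unconditional form. -/
theorem limit_law' (g : ℕ → ℝ) (hg : Tendsto g atTop atTop)
    (hg2 : Tendsto (fun n : ℕ => g n / n) atTop (nhds 0)) (lam : ℝ) (hlam : 1 ≤ lam) :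
    Tendsto (fun X : ℕ => ({n : ℕ | 1 ≤ n ∧ n ≤ X ∧ ¬ FallsBefore n (g n) lam}.ncard : ℝ) / X)
      atTop (nhds (F lam)) := by
  classical
  have h1 := dens (fun n => ¬ FallsBefore n (g n) lam) lam hlam
    (fun K => by
      have h2 : ∀ᶠ n : ℕ in atTop, g n / n < 1 / 2 ^ K :=
        hg2.eventually_lt_const (by positivity)
      obtain ⟨n₀, hn₀⟩ := eventually_atTop.1 h2
      refine ⟨n₀ + 1, fun n hn h => ?_⟩
      rintro ⟨k, hk1, hk2⟩
      obtain ⟨j, hj, hj2⟩ := reach_of_high h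
      have hkj : k ≤ j := by
        by_contra hcon
        have := hk2 j (by omega)
        linarith
      have hn0 : (0 : ℝ) < n := by exact_mod_cast (by omega : 0 < n)
      have h3 := hn₀ n (by omega)
      rw [div_lt_div_iff₀ hn0 (by positivity)] at h3
      have h4 := (bounds k n).1
      have h5 : (3 : ℝ) ^ (odds k n).card * n ≤ 2 ^ k * T^[k] n := by exact_mod_cast h4
      have h6 : (1 : ℝ) ≤ 3 ^ (odds k n).card := one_le_pow₀ (by norm_num)
      have h7 : (2 : ℝ) ^ k ≤ 2 ^ K := pow_le_pow_right₀ (by norm_num) (by omega)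
      have h8 : (n : ℝ) ≤ 2 ^ K * T^[k] n := by
        calc (n : ℝ) = 1 * n := (one_mul _).symm
          _ ≤ (3 : ℝ) ^ (odds k n).card * n := mul_le_mul_of_nonneg_right h6 hn0.le
          _ ≤ 2 ^ k * T^[k] n := h5
          _ ≤ _ := mul_le_mul_of_nonneg_right h7 (Nat.cast_nonneg _)
      have h9 : (0 : ℝ) < 2 ^ K := by positivity
      nlinarith)
    (fun y => by
      obtain ⟨n₀, hn₀⟩ := eventually_atTop.1 (hg.eventually_ge_atTop y)
      refine ⟨n₀, fun n hn h hf => h ?_⟩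
      obtain ⟨k, hk1, hk2⟩ := hf
      exact ⟨k, hk1.trans_le (hn₀ n hn), hk2⟩)
  exact dens_shift (fun n => ¬ FallsBefore n (g n) lam) (F lam) h1

/-- **The dichotomy.** -/
theorem dichotomy {c : ℝ} (hc : 0 < c) (hkey : KeyIneq c) :
    ((∀ n, t n ≠ ⊤) ∧ ∀ lam : ℝ, 1 ≤ lam →
      Tendsto (fun X : ℕ => ({n : ℕ | 1 ≤ n ∧ n ≤ X ∧ ((⌈lam * n⌉₊ : ℕ) : ℕ∞) ≤ t n}.ncard : ℝ) / X)
        atTop (nhds (F lam))) ∨
    ∃ c' X₀ : ℝ, 0 < c' ∧ ∀ X : ℝ, X₀ ≤ X → c' * X ≤ (N X ⊤ : ℝ) := by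
  by_cases hb : ∀ n, t n ≠ ⊤
  · exact Or.inl ⟨hb, limit_law hb⟩
  · right
    push Not at hb
    obtain ⟨m, hm⟩ := hb
    have hm1 : 1 ≤ m := by
      by_contra h
      have h0 : m = 0 := by omega
      subst h0
      have h1 : t 0 = 0 := by
        have h2 : ∀ k, T^[k] 0 = 0 := by
          intro k
          induction k with
          | zero => rfl
          | succ k ih => rw [Function.iterate_succ_apply', ih]; rfl
        unfold t
        simp [h2]
      rw [h1] at hm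
      exact absurd hm (by simp)
    have hm0 : (0 : ℝ) < m := by exact_mod_cast hm1
    refine ⟨c / m, m, by positivity, fun X hX => ?_⟩
    have := unbounded hkey m hm hm1 X hX
    calc c / m * X = c * X / m := by ring
      _ ≤ _ := this

/-- **The hereditary form of Q1**: if Q1 fails, then for every `C` a positive proportion of all
numbers have a term `m` in their trajectory with `t(m) > C m ^ 2`. -/
theorem hereditary (hU : PD.UCountStatement)
    (hQ : ¬ ∃ C : ℝ, ∀ n : ℕ, 1 ≤ n → t n ≤ ⌊C * (n : ℝ) ^ 2⌋₊) (C : ℝ) :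
    ∃ c X₀ : ℝ, 0 < c ∧ ∀ X : ℝ, X₀ ≤ X →
      c * X ≤ ({n : ℕ | 1 ≤ n ∧ (n : ℝ) ≤ X ∧
        ∃ j, ((⌊C * (T^[j] n : ℝ) ^ 2⌋₊ : ℕ) : ℕ∞) < t (T^[j] n)}.ncard : ℝ) := by
  obtain ⟨c, hc, hU⟩ := hU
  push Not at hQ
  obtain ⟨m, hm1, hm2⟩ := hQ (4 * max C 1)
  have hm0 : (0 : ℝ) < m := by exact_mod_cast hm1
  have hmr : (1 : ℝ) ≤ m := by exact_mod_cast hm1
  have hC1 : 1 ≤ max C 1 := le_max_right _ _
  rcases exists_prime3 m hm1 with h3 | ⟨j, h3, h4, h5⟩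
  · exfalso
    rw [h3] at hm2
    have h6 : ⌊4 * max C 1 * (m : ℝ) ^ 2⌋₊ < m := by exact_mod_cast hm2
    have h7 : m ≤ ⌊4 * max C 1 * (m : ℝ) ^ 2⌋₊ := by
      apply Nat.le_floor
      nlinarith
    omega
  · set m' := T^[j] m with hm'
    have hm'1 : 1 ≤ m' := iter_pos hm1 j
    have hm'0 : (0 : ℝ) < m' := by exact_mod_cast hm'1
    have hm'2 : (m' : ℝ) ≤ 2 * m := by exact_mod_cast h4
    refine ⟨c / m', m', by positivity, fun X hX => ?_⟩
    have h6 : c * X / m' ≤ ({n : ℕ | 1 ≤ n ∧ (n : ℝ) ≤ X ∧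
        ∃ j, ((⌊C * (T^[j] n : ℝ) ^ 2⌋₊ : ℕ) : ℕ∞) < t (T^[j] n)}.ncard : ℝ) := by
      refine pre_count hU m' hm'1 h3 X hX _ ?_ ?_
      · rintro n hn1 hn2 ⟨k, hk⟩
        refine ⟨hn1, hn2, k, ?_⟩
        rw [hk, ← h5]
        refine lt_of_le_of_lt ?_ hm2
        apply floor_mono
        have h7 : (m' : ℝ) ^ 2 ≤ (2 * m) ^ 2 := pow_le_pow_left₀ hm'0.le hm'2 2
        calc C * (m' : ℝ) ^ 2 ≤ max C 1 * (m' : ℝ) ^ 2 := by
              gcongr; exact le_max_left _ _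
          _ ≤ max C 1 * (2 * m) ^ 2 := mul_le_mul_of_nonneg_left h7 (by linarith)
          _ = _ := by ring
      · exact fun n hn => hn.2.1
    calc c / m' * X = c * X / m' := by ring
      _ ≤ _ := h6

end Pool.Agent.Lib.MP_0a5adf_nt.XT
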