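import Pool.Agent.Lib.MP_0a5adf_nt.XT.Main

/-!
Maximum excursions of the 3x+1 map: the limit law in natural density.
-/

set_option autoImplicit false

namespace Pool.Agent.Lib.MP_0a5adf_nt.XT

open Finset Filter

open Classical in
theorem ncard_eq (S : ℕ → Prop) (N : ℕ) :
    ({n : ℕ | n < N ∧ S n}.ncard : ℝ) = (((range N).filter S).card : ℝ) := by
  rw [← Set.ncard_coe_finset]
  congr 2
  ext n
  simp

theorem law_falls (g : ℕ → ℝ) (hg : Tendsto g atTop atTop)
    (hg2 : Tendsto (fun n : ℕ => g n / n) atTop (nhds 0)) (lam : ℝ) (hlam : 1 ≤ lam) :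
    Tendsto (fun N : ℕ => ({n : ℕ | n < N ∧ ¬ FallsBefore n (g n) lam}.ncard : ℝ) / N)
      atTop (nhds (F lam)) := by
  classical
  have h1 := dens (fun n => ¬ FallsBefore n (g n) lam) lam hlam
    (fun K => by
      have h2 : ∀ᶠ n : ℕ in atTop, g n / n < 1 / 2 ^ K :=
        hg2.eventually_lt_const (by positivity)
      obtain ⟨n₀, hn₀⟩ := eventually_atTop.1 h2
      refine ⟨n₀ + 1, fun n hn h => ?_⟩
      rintro ⟨k, hk1, hk2⟩
      obtain ⟨j, hj, hj2⟩ := reach_of_high h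
      have hkj : k ≤ j := by
        by_contra hcon
        have := hk2 j (by omega)
        linarith
      have hn0 : (0 : ℝ) < n := by exact_mod_cast (by omega : 0 < n)
      have h3 := hn₀ n (by omega)
      rw [div_lt_div_iff₀ hn0 (by positivity)] at h3
      have h4 := (bounds k n).1
      have h5 : (3 : ℝ) ^ (odds k n).card * n ≤ 2 ^ k * T^[k] n := by exact_mod_cast h4
      have h6 : (1 : ℝ) ≤ 3 ^ (odds k n).card := one_le_pow₀ (by norm_num)
      have h7 : (2 : ℝ) ^ k ≤ 2 ^ K := pow_le_pow_right₀ (by norm_num) (by omega)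
      have h8 : (n : ℝ) ≤ 2 ^ K * T^[k] n := by
        calc (n : ℝ) = 1 * n := (one_mul _).symm
          _ ≤ (3 : ℝ) ^ (odds k n).card * n := mul_le_mul_of_nonneg_right h6 hn0.le
          _ ≤ 2 ^ k * T^[k] n := h5
          _ ≤ _ := mul_le_mul_of_nonneg_right h7 (Nat.cast_nonneg _)
      have h9 : (0 : ℝ) < 2 ^ K := by positivity
      nlinarith)
    (fun y => by
      obtain ⟨n₀, hn₀⟩ := eventually_atTop.1 (hg.eventually_ge_atTop y)
      refine ⟨n₀, fun n hn h hf => h ?_⟩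
      obtain ⟨k, hk1, hk2⟩ := hf
      exact ⟨k, hk1.trans_le (hn₀ n hn), hk2⟩)
  simp only [ncard_eq]
  exact h1

theorem law_reach (hb : ∀ n, ∃ R : ℕ, ∀ k, T^[k] n ≤ R) (lam : ℝ) (hlam : 1 ≤ lam) :
    Tendsto (fun N : ℕ => ({n : ℕ | n < N ∧ ∃ k : ℕ, lam * n ≤ (T^[k] n : ℝ)}.ncard : ℝ) / N)
      atTop (nhds (F lam)) := by
  classical
  have hb' : ∀ n, t n ≠ ⊤ := by
    intro n
    obtain ⟨R, hR⟩ := hb n
    have h1 : t n ≤ (R : ℕ∞) := iSup_le fun k => by exact_mod_cast hR k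
    exact ne_top_of_le_ne_top (ENat.natCast_ne_top R) h1
  have h1 := dens (fun n => ∃ k : ℕ, lam * n ≤ (T^[k] n : ℝ)) lam hlam
    (fun K => ⟨0, fun n _ h => by
      obtain ⟨k, _, hk⟩ := reach_of_high h
      exact ⟨k, hk⟩⟩)
    (fun y => by
      obtain ⟨n₀, hn₀⟩ := exists_bound hb' y lam hlam
      exact ⟨n₀, fun n hn h => hn₀ n hn h⟩)
  simp only [ncard_eq]
  exact h1

end Pool.Agent.Lib.MP_0a5adf_nt.XT
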