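import Pool.Agent.Lib.MP_0a5adf_nt.XT.Base

/-!
Maximum excursions of the 3x+1 map: bounds for most numbers give bounds for all numbers.
-/

set_option autoImplicit false

namespace Pool.Agent.Lib.MP_0a5adf_nt.XT

open Finset Pool.Agent.Lib.MP_edb5be_nt

/-- The inequality of `key`. -/
def KeyIneq (c : ℝ) : Prop :=
  ∀ (m : ℕ) (X : ℝ), 1 ≤ m → (m : ℝ) ≤ X → c * X / m ≤ (N X (t m) : ℝ)

theorem le_floor_of_lt_ceil {a : ℕ∞} {x : ℝ} (h : a < (⌈x⌉₊ : ℕ∞)) : a ≤ (⌊x⌋₊ : ℕ∞) := by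
  obtain ⟨b, rfl⟩ := ENat.ne_top_iff_exists.1 (ne_top_of_lt h)
  have h1 : b < ⌈x⌉₊ := by exact_mod_cast h
  have h2 : (b : ℝ) < x := Nat.lt_ceil.1 h1
  have h3 : b ≤ ⌊x⌋₊ := Nat.le_floor h2.le
  exact_mod_cast h3

/-- Bound at a point from a bound for the number of exceptions. -/
theorem t_lt_of_count {c : ℝ} (hkey : KeyIneq c) {m : ℕ} {X : ℝ} (hm : 1 ≤ m) (hX : (m : ℝ) ≤ X)
    {h : ℕ∞} (hN : (N X h : ℝ) < c * X / m) : t m < h := by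
  by_contra hh
  push Not at hh
  have h1 := hkey m X hm hX
  have h2 : (N X (t m) : ℝ) ≤ N X h := by exact_mod_cast N_anti hh
  linarith

theorem N_le {X : ℝ} (hX : 0 ≤ X) (h : ℕ∞) : (N X h : ℝ) ≤ X := by
  have h1 : N X h ≤ (Set.Icc 1 ⌊X⌋₊).ncard := by
    refine Set.ncard_le_ncard ?_ (Set.finite_Icc _ _)
    rintro n ⟨hn1, hn2, _⟩
    exact ⟨hn1, Nat.le_floor hn2⟩
  have h2 : (Set.Icc 1 ⌊X⌋₊).ncard = ⌊X⌋₊ := by
    rw [← Nat.card_coe_set_eq, Nat.card_eq_fintype_card]; simp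
  rw [h2] at h1
  exact le_trans (by exact_mod_cast h1) (Nat.floor_le hX)

/-- **Transfer**: a power saving in the number of exceptions gives a bound for all numbers. -/
theorem transfer {c : ℝ} (hc : 0 < c) (hkey : KeyIneq c) (θ δ K : ℝ) (hθ : 0 < θ) (hδ : 0 < δ)
    (hδ1 : δ ≤ 1) (hN : ∀ X : ℝ, 1 ≤ X → (N X ⌈X ^ θ⌉₊ : ℝ) ≤ K * X ^ (1 - δ)) :
    ∃ C : ℝ, ∀ n : ℕ, 1 ≤ n → t n ≤ ⌊C * (n : ℝ) ^ (θ / δ)⌋₊ := by
  set C1 : ℝ := max 1 (K / c) with hC1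
  have hC11 : 1 ≤ C1 := le_max_left _ _
  have hC1K : K / c ≤ C1 := le_max_right _ _
  refine ⟨2 ^ θ * C1 ^ (θ / δ), fun m hm => ?_⟩
  have hm1 : (1 : ℝ) ≤ m := by exact_mod_cast hm
  have hm0 : (0 : ℝ) < m := by linarith
  have hCm : 1 ≤ C1 * m := one_le_mul_of_one_le_of_one_le hC11 hm1
  have hCm0 : 0 < C1 * m := by linarith
  set X : ℝ := 2 * (C1 * m) ^ (1 / δ) with hX
  have h1 : C1 * m ≤ (C1 * m) ^ (1 / δ) := by
    calc C1 * m = (C1 * m) ^ (1 : ℝ) := (Real.rpow_one _).symm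
      _ ≤ _ := Real.rpow_le_rpow_of_exponent_le hCm (by rw [le_div_iff₀ hδ]; linarith)
  have hmX : (m : ℝ) ≤ X := by
    have : (m : ℝ) ≤ C1 * m := le_mul_of_one_le_left hm0.le hC11
    linarith
  have hX1 : 1 ≤ X := hm1.trans hmX
  have hX0 : 0 < X := by linarith
  have hXδ : C1 * m < X ^ δ := by
    have h2 : (C1 * m) ^ (1 / δ) < X := by
      have : 0 < (C1 * m) ^ (1 / δ) := Real.rpow_pos_of_pos hCm0 _
      linarith
    calc C1 * m = ((C1 * m) ^ (1 / δ)) ^ δ := by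
          rw [← Real.rpow_mul hCm0.le, one_div, inv_mul_cancel₀ hδ.ne', Real.rpow_one]
      _ < X ^ δ := Real.rpow_lt_rpow (by positivity) h2 hδ
  have hlt : t m < (⌈X ^ θ⌉₊ : ℕ∞) := by
    refine t_lt_of_count hkey hm hmX ((hN X hX1).trans_lt ?_)
    have h3 : X ^ (1 - δ) * X ^ δ = X := by
      rw [← Real.rpow_add hX0]; simp
    have h4 : 0 < X ^ (1 - δ) := Real.rpow_pos_of_pos hX0 _
    rw [lt_div_iff₀ hm0]
    have h5 : K ≤ C1 * c := by rwa [div_le_iff₀ hc] at hC1K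
    calc K * X ^ (1 - δ) * m ≤ C1 * c * X ^ (1 - δ) * m := by gcongr
      _ = c * X ^ (1 - δ) * (C1 * m) := by ring
      _ < c * X ^ (1 - δ) * X ^ δ := by
          apply mul_lt_mul_of_pos_left hXδ (by positivity)
      _ = c * (X ^ (1 - δ) * X ^ δ) := by ring
      _ = c * X := by rw [h3]
  have h6 := le_floor_of_lt_ceil hlt
  have h7 : X ^ θ = 2 ^ θ * C1 ^ (θ / δ) * (m : ℝ) ^ (θ / δ) := by
    rw [hX, Real.mul_rpow (by norm_num) (by positivity), ← Real.rpow_mul hCm0.le,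
      show 1 / δ * θ = θ / δ by ring, Real.mul_rpow (by positivity) hm0.le]
    ring
  rw [h7] at h6
  exact h6

/-- Monotonicity in the constant. -/
theorem floor_mono {x y : ℝ} (h : x ≤ y) : ((⌊x⌋₊ : ℕ) : ℕ∞) ≤ (⌊y⌋₊ : ℕ) := by
  exact_mod_cast Nat.floor_mono h

/-- **Q1** is equivalent to a statement on the number of exceptions. -/
theorem quadratic {c : ℝ} (hc : 0 < c) (hkey : KeyIneq c) :
    (∃ C : ℝ, ∀ n : ℕ, 1 ≤ n → t n ≤ ⌊C * (n : ℝ) ^ 2⌋₊) ↔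
      ∃ C K : ℝ, ∀ X : ℝ, 1 ≤ X → (N X ⌈C * X ^ 2⌉₊ : ℝ) ≤ K := by
  constructor
  · rintro ⟨C, hC⟩
    refine ⟨max C 0 + 1, 0, fun X hX => ?_⟩
    have hX0 : 0 < X := by linarith
    have h0 : {n : ℕ | 1 ≤ n ∧ (n : ℝ) ≤ X ∧ (⌈(max C 0 + 1) * X ^ 2⌉₊ : ℕ∞) ≤ t n} = ∅ := by
      rw [Set.eq_empty_iff_forall_notMem]
      rintro n ⟨h1, h2, h3⟩
      have h4 := h3.trans (hC n h1)
      have h5 : ⌈(max C 0 + 1) * X ^ 2⌉₊ ≤ ⌊C * (n : ℝ) ^ 2⌋₊ := by exact_mod_cast h4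
      have h6 : (max C 0 + 1) * X ^ 2 ≤ ⌈(max C 0 + 1) * X ^ 2⌉₊ := Nat.le_ceil _
      have h7 : (⌊C * (n : ℝ) ^ 2⌋₊ : ℝ) ≤ max C 0 * X ^ 2 := by
        have h8 : C * (n : ℝ) ^ 2 ≤ max C 0 * X ^ 2 := by
          calc C * (n : ℝ) ^ 2 ≤ max C 0 * (n : ℝ) ^ 2 := by
                gcongr; exact le_max_left _ _
            _ ≤ _ := by gcongr
        calc (⌊C * (n : ℝ) ^ 2⌋₊ : ℝ) ≤ ⌊max C 0 * X ^ 2⌋₊ := by
              exact_mod_cast Nat.floor_mono h8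
          _ ≤ _ := Nat.floor_le (by positivity)
      have h9 : ((⌈(max C 0 + 1) * X ^ 2⌉₊ : ℕ) : ℝ) ≤ (⌊C * (n : ℝ) ^ 2⌋₊ : ℝ) := by
        exact_mod_cast h5
      have h10 : 0 < X ^ 2 := by positivity
      linarith
    have h1 : N X ⌈(max C 0 + 1) * X ^ 2⌉₊ = 0 := by
      unfold N; rw [h0]; exact Set.ncard_empty _
    rw [h1]; simp
  · rintro ⟨C, K, hK⟩
    refine ⟨C * (|K| / c + 1) ^ 2, fun m hm => ?_⟩
    have hm1 : (1 : ℝ) ≤ m := by exact_mod_cast hm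
    have hm0 : (0 : ℝ) < m := by linarith
    have hKc : 0 ≤ |K| / c := by positivity
    have hmX : (m : ℝ) ≤ (|K| / c + 1) * m := by nlinarith
    have hlt : t m < (⌈C * ((|K| / c + 1) * m) ^ 2⌉₊ : ℕ∞) := by
      refine t_lt_of_count hkey hm hmX ((hK _ (hm1.trans hmX)).trans_lt ?_)
      rw [lt_div_iff₀ hm0]
      have h1 : K ≤ |K| := le_abs_self K
      have h2 : c * ((|K| / c + 1) * m) = |K| * m + c * m := by field_simp
      rw [h2]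
      have : 0 < c * m := by positivity
      nlinarith
    have h6 := le_floor_of_lt_ceil hlt
    refine h6.trans (floor_mono (le_of_eq ?_))
    ring

/-- The same for the exponents `κ + o(1)`. -/
theorem exponent {c : ℝ} (hc : 0 < c) (hkey : KeyIneq c) (κ : ℝ) (hκ : 0 ≤ κ) :
    (∀ ε : ℝ, 0 < ε → ∃ C : ℝ, ∀ n : ℕ, 1 ≤ n → t n ≤ ⌊C * (n : ℝ) ^ (κ + ε)⌋₊) ↔
      ∀ ε : ℝ, 0 < ε → ∃ K : ℝ, ∀ X : ℝ, 1 ≤ X → (N X ⌈X ^ (κ + ε)⌉₊ : ℝ) ≤ K * X ^ ε := by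
  constructor
  · intro h ε hε
    obtain ⟨C, hC⟩ := h (ε / 2) (by positivity)
    set C1 : ℝ := max C 1 with hC1
    have hC11 : 1 ≤ C1 := le_max_right _ _
    refine ⟨C1 ^ (2 / ε), fun X hX => ?_⟩
    have hX0 : 0 < X := by linarith
    have hXε : 1 ≤ X ^ ε := Real.one_le_rpow hX hε.le
    rcases le_or_gt X (C1 ^ (2 / ε)) with h1 | h1
    · calc (N X ⌈X ^ (κ + ε)⌉₊ : ℝ) ≤ X := N_le hX0.le _
        _ ≤ C1 ^ (2 / ε) := h1
        _ ≤ C1 ^ (2 / ε) * X ^ ε := le_mul_of_one_le_right (by positivity) hXε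
    · have h0 : {n : ℕ | 1 ≤ n ∧ (n : ℝ) ≤ X ∧ (⌈X ^ (κ + ε)⌉₊ : ℕ∞) ≤ t n} = ∅ := by
        rw [Set.eq_empty_iff_forall_notMem]
        rintro n ⟨h2, h3, h4⟩
        have h5 := h4.trans (hC n h2)
        have h6 : ⌈X ^ (κ + ε)⌉₊ ≤ ⌊C * (n : ℝ) ^ (κ + ε / 2)⌋₊ := by exact_mod_cast h5
        have h7 : X ^ (κ + ε) ≤ ⌈X ^ (κ + ε)⌉₊ := Nat.le_ceil _
        have h8 : (⌊C * (n : ℝ) ^ (κ + ε / 2)⌋₊ : ℝ) ≤ C1 * X ^ (κ + ε / 2) := by
          have h9 : C * (n : ℝ) ^ (κ + ε / 2) ≤ C1 * X ^ (κ + ε / 2) := by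
            calc C * (n : ℝ) ^ (κ + ε / 2) ≤ C1 * (n : ℝ) ^ (κ + ε / 2) := by
                  gcongr; exact le_max_left _ _
              _ ≤ _ := by gcongr
          calc (⌊C * (n : ℝ) ^ (κ + ε / 2)⌋₊ : ℝ) ≤ ⌊C1 * X ^ (κ + ε / 2)⌋₊ := by
                exact_mod_cast Nat.floor_mono h9
            _ ≤ _ := Nat.floor_le (by positivity)
        have h10 : ((⌈X ^ (κ + ε)⌉₊ : ℕ) : ℝ) ≤ (⌊C * (n : ℝ) ^ (κ + ε / 2)⌋₊ : ℝ) := by
          exact_mod_cast h6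
        have h11 : X ^ (κ + ε) = X ^ (κ + ε / 2) * X ^ (ε / 2) := by
          rw [← Real.rpow_add hX0]; congr 1; ring
        have h12 : C1 < X ^ (ε / 2) := by
          calc C1 = (C1 ^ (2 / ε)) ^ (ε / 2) := by
                rw [← Real.rpow_mul (by linarith), show 2 / ε * (ε / 2) = 1 by field_simp,
                  Real.rpow_one]
            _ < X ^ (ε / 2) := Real.rpow_lt_rpow (by positivity) h1 (by positivity)
        have h13 : 0 < X ^ (κ + ε / 2) := Real.rpow_pos_of_pos hX0 _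
        nlinarith
      have h1' : N X ⌈X ^ (κ + ε)⌉₊ = 0 := by
        unfold N; rw [h0]; exact Set.ncard_empty _
      rw [h1']
      have : 0 < C1 ^ (2 / ε) * X ^ ε := by positivity
      simpa using this.le
  · intro h ε hε
    set ε1 : ℝ := ε / (1 + κ + ε) with hε1
    have hden : 0 < 1 + κ + ε := by linarith
    have hε10 : 0 < ε1 := by positivity
    have hε11 : ε1 < 1 := by rw [hε1, div_lt_one hden]; linarith
    obtain ⟨K, hK⟩ := h ε1 hε10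
    obtain ⟨C, hC⟩ := transfer hc hkey (κ + ε1) (1 - ε1) K (by linarith) (by linarith)
      (by linarith) (by simpa using hK)
    refine ⟨C, ?_⟩
    have he : (κ + ε1) / (1 - ε1) = κ + ε := by
      rw [div_eq_iff (by linarith), hε1]
      field_simp
      ring
    rw [he] at hC
    exact hC

/-- Polynomial bounds. -/
theorem polynomial {c : ℝ} (hc : 0 < c) (hkey : KeyIneq c) :
    (∃ κ C : ℝ, ∀ n : ℕ, 1 ≤ n → t n ≤ ⌊C * (n : ℝ) ^ κ⌋₊) ↔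
      ∃ θ δ K : ℝ, 0 < δ ∧ ∀ X : ℝ, 1 ≤ X → (N X ⌈X ^ θ⌉₊ : ℝ) ≤ K * X ^ (1 - δ) := by
  constructor
  · rintro ⟨κ, C, hC⟩
    have h1 : ∀ ε : ℝ, 0 < ε → ∃ C : ℝ, ∀ n : ℕ, 1 ≤ n → t n ≤ ⌊C * (n : ℝ) ^ (max κ 0 + ε)⌋₊ := by
      intro ε hε
      refine ⟨max C 0, fun n hn => (hC n hn).trans (floor_mono ?_)⟩
      have hn1 : (1 : ℝ) ≤ n := by exact_mod_cast hn
      calc C * (n : ℝ) ^ κ ≤ max C 0 * (n : ℝ) ^ κ := by gcongr; exact le_max_left _ _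
        _ ≤ _ := by
          apply mul_le_mul_of_nonneg_left _ (le_max_right _ _)
          exact Real.rpow_le_rpow_of_exponent_le hn1 (by linarith [le_max_left κ 0])
    obtain ⟨K, hK⟩ := (exponent hc hkey (max κ 0) (le_max_right _ _)).1 h1 (1 / 2) (by norm_num)
    refine ⟨max κ 0 + 1 / 2, 1 / 2, K, by norm_num, fun X hX => ?_⟩
    have := hK X hX
    rw [show (1 : ℝ) - 1 / 2 = 1 / 2 by norm_num]
    exact this
  · rintro ⟨θ, δ, K, hδ, h⟩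
    obtain ⟨C, hC⟩ := transfer hc hkey (max θ 1) (min δ 1) |K| (by positivity) (by positivity)
      (min_le_right _ _) (fun X hX => by
        have h1 : (N X ⌈X ^ (max θ 1)⌉₊ : ℝ) ≤ N X ⌈X ^ θ⌉₊ := by
          have h2 : ((⌈X ^ θ⌉₊ : ℕ) : ℕ∞) ≤ (⌈X ^ (max θ 1)⌉₊ : ℕ) := by
            exact_mod_cast Nat.ceil_mono (Real.rpow_le_rpow_of_exponent_le hX (le_max_left _ _))
          exact_mod_cast N_anti h2
        refine h1.trans ((h X hX).trans ?_)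
        have hX0 : 0 < X := by linarith
        calc K * X ^ (1 - δ) ≤ |K| * X ^ (1 - δ) := by gcongr; exact le_abs_self K
          _ ≤ |K| * X ^ (1 - min δ 1) := by
            apply mul_le_mul_of_nonneg_left _ (abs_nonneg K)
            exact Real.rpow_le_rpow_of_exponent_le hX (by linarith [min_le_left δ 1]))
    exact ⟨_, C, hC⟩

/-- **An unbounded trajectory makes a positive proportion of the trajectories unbounded.** -/
theorem unbounded {c : ℝ} (hkey : KeyIneq c) (m : ℕ) (hm : t m = ⊤) (hm1 : 1 ≤ m) (X : ℝ)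
    (hX : (m : ℝ) ≤ X) : c * X / m ≤ (N X ⊤ : ℝ) := by
  have := hkey m X hm1 hX
  rwa [hm] at this

end Pool.Agent.Lib.MP_0a5adf_nt.XT
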