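import Pool.Agent.Lib.MP_0a5adf_nt.XT.Base

/-!
Maximum excursions of the 3x+1 map: parities and the random walk.
-/

set_option autoImplicit false

namespace Pool.Agent.Lib.MP_0a5adf_nt.XT

open Finset Filter

/-- The times `i < k` at which the trajectory is odd. -/
def odds (k n : ℕ) : Finset ℕ := (range k).filter fun i => T^[i] n % 2 = 1

/-- One of the products of the first `k ≤ K` factors is at least `lam`, `A` being the set of the
factors `3 / 2`, the others being `1 / 2`. -/
def High (K : ℕ) (lam : ℝ) (A : Finset ℕ) : Prop :=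
  ∃ k ≤ K, lam ≤ (3 : ℝ) ^ (A.filter (· < k)).card / 2 ^ k

open Classical in
/-- The proportion of the sets `A` with this property. -/
noncomputable def walk (K : ℕ) (lam : ℝ) : ℝ :=
  (((range K).powerset.filter fun A => High K lam A).card : ℝ) / 2 ^ K

/-- The probability that one of the products of independent factors, equal to `3 / 2` or `1 / 2` with
probability `1 / 2`, is at least `lam`. -/
noncomputable def F (lam : ℝ) : ℝ := ⨆ K : ℕ, walk K lam

theorem odds_succ (k n : ℕ) : (odds (k + 1) n).card = (odds k n).card + T^[k] n % 2 := by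
  unfold odds
  rw [range_add_one, filter_insert]
  split_ifs with h
  · rw [card_insert_of_notMem (by simp), h]
  · have : T^[k] n % 2 = 0 := by omega
    rw [this, add_zero]

theorem odds_filter {k K : ℕ} (h : k ≤ K) (n : ℕ) : (odds K n).filter (· < k) = odds k n := by
  unfold odds
  ext i
  simp only [mem_filter, mem_range]
  constructor
  · rintro ⟨⟨h1, h2⟩, h3⟩; exact ⟨h3, h2⟩
  · rintro ⟨h1, h2⟩; exact ⟨⟨by omega, h2⟩, h1⟩

/-- Lower and upper bounds for the iterates. -/
theorem bounds (k n : ℕ) : 3 ^ (odds k n).card * n ≤ 2 ^ k * T^[k] n ∧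
    2 ^ k * (T^[k] n + 1) ≤ 3 ^ (odds k n).card * (n + 2 ^ k) := by
  induction k with
  | zero => simp [odds]
  | succ k ih =>
    rw [odds_succ, Function.iterate_succ_apply']
    obtain ⟨h1, h2⟩ := ih
    set a := T^[k] n with ha
    set s := (odds k n).card with hs
    have h3 : 1 ≤ 3 ^ s := Nat.one_le_pow _ _ (by norm_num)
    rcases Nat.even_or_odd a with he | ho
    · have he' : a % 2 = 0 := Nat.even_iff.1 he
      obtain ⟨b, hb⟩ := he
      have hT : T a = b := by unfold T; split_ifs <;> omega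
      rw [hT, he', add_zero]
      have hp : (2 : ℕ) ^ (k + 1) = 2 * 2 ^ k := by ring
      rw [hp]
      rw [hb] at h1 h2
      constructor
      · calc 3 ^ s * n ≤ 2 ^ k * (b + b) := h1
          _ = 2 * 2 ^ k * b := by ring
      · calc 2 * 2 ^ k * (b + 1) = 2 ^ k * (b + b + 1) + 2 ^ k * 1 := by ring
          _ ≤ 3 ^ s * (n + 2 ^ k) + 2 ^ k * 3 ^ s := Nat.add_le_add h2 (Nat.mul_le_mul_left _ h3)
          _ = _ := by ring
    · have ho' : a % 2 = 1 := Nat.odd_iff.1 ho
      have hT : 2 * T a = 3 * a + 1 := by unfold T; split_ifs <;> omega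
      rw [ho']
      have hp : ∀ x : ℕ, (2 : ℕ) ^ (k + 1) * x = 2 ^ k * (2 * x) := fun x => by ring
      rw [hp, hp, hT, mul_add 2, hT]
      constructor
      · calc 3 ^ (s + 1) * n = 3 * (3 ^ s * n) := by ring
          _ ≤ 3 * (2 ^ k * a) := Nat.mul_le_mul_left _ h1
          _ ≤ 2 ^ k * (3 * a + 1) := by
            have : 2 ^ k * (3 * a + 1) = 3 * (2 ^ k * a) + 2 ^ k := by ring
            rw [this]; exact Nat.le_add_right _ _
      · calc 2 ^ k * (3 * a + 1 + 2 * 1) = 3 * (2 ^ k * (a + 1)) := by ring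
          _ ≤ 3 * (3 ^ s * (n + 2 ^ k)) := Nat.mul_le_mul_left _ h2
          _ = 3 ^ (s + 1) * (n + 2 ^ k) := by ring
          _ ≤ _ := Nat.mul_le_mul_left _ (Nat.add_le_add_left (Nat.pow_le_pow_right (by norm_num) (by omega)) _)

/-- Adding a multiple of `2 ^ K`. -/
theorem iter_add (K m : ℕ) (n i : ℕ) (hi : i ≤ K) :
    T^[i] (n + 2 ^ K * m) = T^[i] n + 3 ^ (odds i n).card * 2 ^ (K - i) * m ∧
      odds i (n + 2 ^ K * m) = odds i n := by
  induction i with
  | zero => simp [odds]
  | succ i ih =>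
    obtain ⟨h1, h2⟩ := ih (by omega)
    have hp : (2 : ℕ) ^ (K - i) = 2 * 2 ^ (K - (i + 1)) := by
      rw [show K - i = (K - (i + 1)) + 1 by omega]; ring
    set z := 3 ^ (odds i n).card * 2 ^ (K - (i + 1)) * m with hz
    have hz2 : 3 ^ (odds i n).card * 2 ^ (K - i) * m = 2 * z := by rw [hp, hz]; ring
    rw [hz2] at h1
    have h3 : T^[i] (n + 2 ^ K * m) % 2 = T^[i] n % 2 := by rw [h1]; omega
    constructor
    · rw [Function.iterate_succ_apply', Function.iterate_succ_apply', h1, odds_succ]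
      set a := T^[i] n with ha
      rcases Nat.even_or_odd a with he | ho
      · have he' : a % 2 = 0 := Nat.even_iff.1 he
        have h4 : 3 ^ ((odds i n).card + a % 2) * 2 ^ (K - (i + 1)) * m = z := by rw [he', add_zero]
        rw [h4]
        unfold T
        split_ifs <;> omega
      · have ho' : a % 2 = 1 := Nat.odd_iff.1 ho
        have h4 : 3 ^ ((odds i n).card + a % 2) * 2 ^ (K - (i + 1)) * m = 3 * z := by
          rw [ho', hz]; ring
        rw [h4]
        unfold T
        split_ifs <;> omega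
    · unfold odds at h2 ⊢
      rw [range_add_one, filter_insert, filter_insert, h2, h3]

theorem odds_periodic (K : ℕ) (n : ℕ) : odds K (n + 2 ^ K) = odds K n := by
  have := (iter_add K 1 n K le_rfl).2
  rwa [mul_one] at this

/-- `odds` in terms of the next term. -/
theorem mem_odds_succ {K n i : ℕ} : i + 1 ∈ odds (K + 1) n ↔ i ∈ odds K (T n) := by
  unfold odds
  simp only [mem_filter, mem_range, Function.iterate_succ_apply]
  constructor
  · rintro ⟨h1, h2⟩; exact ⟨by omega, h2⟩
  · rintro ⟨h1, h2⟩; exact ⟨by omega, h2⟩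

theorem zero_mem_odds {K n : ℕ} : 0 ∈ odds (K + 1) n ↔ n % 2 = 1 := by
  unfold odds
  simp

/-- Terras: the parities determine the residue. -/
theorem odds_inj (K : ℕ) (n n' : ℕ) (h : odds K n = odds K n') : n ≡ n' [MOD 2 ^ K] := by
  induction K generalizing n n' with
  | zero => rw [pow_zero]; exact Nat.modEq_one
  | succ K ih =>
    have h1 : odds K (T n) = odds K (T n') := by
      ext i
      rw [← mem_odds_succ, ← mem_odds_succ, h]
    have h2 : n % 2 = 1 ↔ n' % 2 = 1 := by
      rw [← zero_mem_odds (K := K), ← zero_mem_odds (K := K), h]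
    have h3 := ih _ _ h1
    have h4 : 2 * T n ≡ 2 * T n' [MOD 2 ^ (K + 1)] := by
      rw [pow_succ']
      exact h3.mul_left' 2
    rcases Nat.even_or_odd n with he | ho
    · have he' : n % 2 = 0 := Nat.even_iff.1 he
      have he2 : n' % 2 = 0 := by omega
      have h5 : 2 * T n = n := by unfold T; split_ifs; omega
      have h6 : 2 * T n' = n' := by unfold T; split_ifs; omega
      rwa [h5, h6] at h4
    · have ho' : n % 2 = 1 := Nat.odd_iff.1 ho
      have ho2 : n' % 2 = 1 := by omega
      have h5 : 2 * T n = 3 * n + 1 := by unfold T; split_ifs <;> omega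
      have h6 : 2 * T n' = 3 * n' + 1 := by unfold T; split_ifs <;> omega
      rw [h5, h6] at h4
      have h7 : 3 * n ≡ 3 * n' [MOD 2 ^ (K + 1)] := Nat.ModEq.add_right_cancel' 1 h4
      refine Nat.ModEq.cancel_left_of_coprime ?_ h7
      exact Nat.Coprime.pow_left _ (by norm_num)

open Classical in
/-- Equidistribution of the parities. -/
theorem card_odds (K : ℕ) (P : Finset ℕ → Prop) :
    ((range (2 ^ K)).filter fun n => P (odds K n)).card = ((range K).powerset.filter P).card := by
  refine card_bij (fun n _ => odds K n) ?_ ?_ ?_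
  · intro n hn
    rw [mem_filter] at hn
    rw [mem_filter, mem_powerset]
    exact ⟨filter_subset _ _, hn.2⟩
  · intro n hn n' hn' h
    rw [mem_filter, mem_range] at hn hn'
    have := odds_inj K n n' h
    exact this.eq_of_lt_of_lt hn.1 hn'.1
  · intro A hA
    rw [mem_filter, mem_powerset] at hA
    -- surjectivity by counting
    have h1 : ((range (2 ^ K)).image fun n => odds K n) = (range K).powerset := by
      refine eq_of_subset_of_card_le ?_ ?_
      · intro B hB
        rw [mem_image] at hB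
        obtain ⟨n, _, rfl⟩ := hB
        rw [mem_powerset]
        exact filter_subset _ _
      · rw [card_powerset, card_range, card_image_of_injOn, card_range]
        intro n hn n' hn' h
        rw [coe_range, Set.mem_Iio] at hn hn'
        exact (odds_inj K n n' h).eq_of_lt_of_lt hn hn'
    have h2 : A ∈ (range (2 ^ K)).image fun n => odds K n := by
      rw [h1, mem_powerset]; exact hA.1
    rw [mem_image] at h2
    obtain ⟨n, hn, rfl⟩ := h2
    exact ⟨n, mem_filter.2 ⟨hn, hA.2⟩, rfl⟩

open Classical in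
/-- Equidistribution in the dyadic blocks. -/
theorem card_block (k L : ℕ) (hk : k ≤ L) (P : Finset ℕ → Prop) :
    ((Ico (2 ^ L) (2 ^ (L + 1))).filter fun n => P (odds k n)).card =
      2 ^ (L - k) * ((range k).powerset.filter P).card := by
  have hper : Function.Periodic (fun n => P (odds k n)) (2 ^ k) := by
    intro n
    simp only [odds_periodic]
  have hmain : ∀ (a r : ℕ), ((Ico a (a + 2 ^ k * r)).filter fun n => P (odds k n)).card =
      r * ((range k).powerset.filter P).card := by
    intro a r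
    induction r with
    | zero => simp
    | succ r ih =>
      have h1 : Ico a (a + 2 ^ k * (r + 1)) = Ico a (a + 2 ^ k * r) ∪
          Ico (a + 2 ^ k * r) (a + 2 ^ k * r + 2 ^ k) := by
        rw [Ico_union_Ico_eq_Ico (Nat.le_add_right _ _) (Nat.le_add_right _ _)]
        congr 1
        ring
      rw [h1, filter_union, card_union_of_disjoint, ih]
      · rw [Nat.filter_Ico_card_eq_of_periodic _ _ _ hper, Nat.count_eq_card_filter_range,
          card_odds]
        ring
      · refine disjoint_filter_filter ?_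
        rw [Finset.disjoint_left]
        intro x hx hx'
        rw [mem_Ico] at hx hx'
        omega
  have h2 : 2 ^ (L + 1) = 2 ^ L + 2 ^ k * 2 ^ (L - k) := by
    rw [← pow_add, show k + (L - k) = L by omega]; ring
  rw [h2]
  exact hmain _ _

open Classical in
theorem walk_nonneg (K : ℕ) (lam : ℝ) : 0 ≤ walk K lam := by unfold walk; positivity

open Classical in
theorem walk_le_one (K : ℕ) (lam : ℝ) : walk K lam ≤ 1 := by
  unfold walk
  rw [div_le_one (by positivity)]
  have h1 : ((range K).powerset.filter fun A => High K lam A).card ≤ (range K).powerset.card :=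
    card_filter_le _ _
  rw [card_powerset, card_range] at h1
  exact_mod_cast h1

open Classical in
theorem walk_mono (lam : ℝ) : Monotone fun K => walk K lam := by
  refine monotone_nat_of_le_succ fun K => ?_
  -- in terms of numbers of a block
  have h1 : ∀ k, k ≤ K + 1 → walk k lam =
      (((Ico (2 ^ (K + 1)) (2 ^ (K + 1 + 1))).filter fun n => High k lam (odds k n)).card : ℝ) /
        2 ^ (K + 1) := by
    intro k hk
    rw [card_block k (K + 1) hk (fun A => High k lam A)]
    unfold walk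
    push_cast
    rw [div_eq_div_iff (by positivity) (by positivity)]
    have : (2 : ℝ) ^ (K + 1) = 2 ^ (K + 1 - k) * 2 ^ k := by
      rw [← pow_add]; congr 1; omega
    rw [this]; ring
  rw [h1 K (by omega), h1 (K + 1) le_rfl]
  apply div_le_div_of_nonneg_right _ (by positivity)
  have h2 : ((Ico (2 ^ (K + 1)) (2 ^ (K + 1 + 1))).filter fun n => High K lam (odds K n)).card ≤
      ((Ico (2 ^ (K + 1)) (2 ^ (K + 1 + 1))).filter
        fun n => High (K + 1) lam (odds (K + 1) n)).card := by
    apply card_le_card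
    intro n hn
    rw [mem_filter] at hn ⊢
    refine ⟨hn.1, ?_⟩
    obtain ⟨k, hk, hk2⟩ := hn.2
    refine ⟨k, by omega, ?_⟩
    rw [odds_filter (by omega)]
    rwa [odds_filter hk] at hk2
  exact_mod_cast h2

theorem walk_bdd (lam : ℝ) : BddAbove (Set.range fun K => walk K lam) :=
  ⟨1, by rintro _ ⟨K, rfl⟩; exact walk_le_one K lam⟩

theorem walk_tendsto (lam : ℝ) : Tendsto (fun K => walk K lam) atTop (nhds (F lam)) :=
  tendsto_atTop_ciSup (walk_mono lam) (walk_bdd lam)

theorem walk_le_F (K : ℕ) (lam : ℝ) : walk K lam ≤ F lam := le_ciSup (walk_bdd lam) K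

/-! ### Late visits -/

theorem sum_sqrt (k : ℕ) : ∑ B ∈ (range k).powerset, (√3 : ℝ) ^ B.card = (1 + √3) ^ k := by
  have := Finset.sum_pow_mul_eq_add_pow (√3 : ℝ) 1 (range k)
  simp only [one_pow, mul_one, card_range] at this
  rw [this, add_comm]

/-- `(1 + √3) / (2 √2)`. -/
noncomputable def rho : ℝ := (1 + √3) / (2 * √2)

theorem rho_pos : 0 < rho := by unfold rho; positivity

theorem rho_lt : rho < 1 := by
  unfold rho
  rw [div_lt_one (by positivity)]
  have h2 : (1.414 : ℝ) < √2 := by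
    rw [Real.lt_sqrt (by norm_num)]; norm_num
  have h3 : √3 < (1.733 : ℝ) := by
    rw [Real.sqrt_lt' (by norm_num)]; norm_num
  linarith

open Classical in
theorem card_high (k : ℕ) :
    (((range k).powerset.filter fun B => 2 ^ k ≤ 2 * 3 ^ B.card).card : ℝ) ≤
      √2 * (2 * rho) ^ k := by
  have h1 : ∀ B ∈ (range k).powerset.filter (fun B => 2 ^ k ≤ 2 * 3 ^ B.card),
      (1 : ℝ) ≤ √2 * (√3 ^ B.card / √2 ^ k) := by
    intro B hB
    rw [mem_filter] at hB
    have h2 : ((2 : ℝ) ^ k) ≤ 2 * 3 ^ B.card := by exact_mod_cast hB.2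
    have h3 : √((2 : ℝ) ^ k) ≤ √(2 * 3 ^ B.card) := Real.sqrt_le_sqrt h2
    rw [Real.sqrt_mul (by norm_num)] at h3
    have h4 : ∀ (x : ℝ) (_ : 0 ≤ x) (j : ℕ), √(x ^ j) = √x ^ j := by
      intro x hx j
      rw [Real.sqrt_eq_iff_mul_self_eq (by positivity) (by positivity), ← mul_pow,
        Real.mul_self_sqrt hx]
    rw [h4 2 (by norm_num), h4 3 (by norm_num)] at h3
    rw [← mul_div_assoc, le_div_iff₀ (by positivity), one_mul]
    exact h3
  calc (((range k).powerset.filter fun B => 2 ^ k ≤ 2 * 3 ^ B.card).card : ℝ)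
      = ∑ B ∈ (range k).powerset.filter (fun B => 2 ^ k ≤ 2 * 3 ^ B.card), (1 : ℝ) := by simp
    _ ≤ ∑ B ∈ (range k).powerset.filter (fun B => 2 ^ k ≤ 2 * 3 ^ B.card),
        √2 * (√3 ^ B.card / √2 ^ k) := sum_le_sum h1
    _ ≤ ∑ B ∈ (range k).powerset, √2 * (√3 ^ B.card / √2 ^ k) :=
        sum_le_sum_of_subset_of_nonneg (filter_subset _ _) (fun _ _ _ => by positivity)
    _ = √2 * ((∑ B ∈ (range k).powerset, (√3 : ℝ) ^ B.card) / √2 ^ k) := by
        rw [Finset.sum_div, Finset.mul_sum]
    _ = √2 * (2 * rho) ^ k := by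
        rw [sum_sqrt, ← div_pow]
        congr 2
        unfold rho
        have : √2 * √2 = 2 := Real.mul_self_sqrt (by norm_num)
        field_simp

open Classical in
/-- The numbers of the block that are above `lam n` at a time `k`, `K < k ≤ L`. -/
theorem card_late (K L : ℕ) (lam : ℝ) (hlam : 1 ≤ lam) :
    (((Ico (2 ^ L) (2 ^ (L + 1))).filter
      fun n : ℕ => ∃ k, K < k ∧ k ≤ L ∧ lam * n ≤ (T^[k] n : ℝ)).card : ℝ) ≤
      2 ^ L * (√2 * rho ^ (K + 1) / (1 - rho)) := by
  have hr0 := rho_pos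
  have hr1 := rho_lt
  have hsub : ((Ico (2 ^ L) (2 ^ (L + 1))).filter
      fun n : ℕ => ∃ k, K < k ∧ k ≤ L ∧ lam * n ≤ (T^[k] n : ℝ)) ⊆
      (Ico (K + 1) (L + 1)).biUnion fun k => (Ico (2 ^ L) (2 ^ (L + 1))).filter
        fun n => 2 ^ k ≤ 2 * 3 ^ (odds k n).card := by
    intro n hn
    rw [mem_filter, mem_Ico] at hn
    obtain ⟨⟨hn1, hn2⟩, k, hk1, hk2, hk3⟩ := hn
    rw [mem_biUnion]
    refine ⟨k, mem_Ico.2 ⟨by omega, by omega⟩, ?_⟩
    rw [mem_filter, mem_Ico]
    refine ⟨⟨hn1, hn2⟩, ?_⟩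
    have h1 := (bounds k n).2
    have h2 : n ≤ T^[k] n := by
      have h3 : (n : ℝ) ≤ lam * n := le_mul_of_one_le_left (Nat.cast_nonneg n) hlam
      exact_mod_cast h3.trans hk3
    have h4 : 2 ^ k ≤ n := (Nat.pow_le_pow_right (by norm_num) hk2).trans hn1
    have h5 : 2 ^ k * n ≤ 3 ^ (odds k n).card * (2 * n) := by
      calc 2 ^ k * n ≤ 2 ^ k * (T^[k] n + 1) := Nat.mul_le_mul_left _ (by omega)
        _ ≤ 3 ^ (odds k n).card * (n + 2 ^ k) := h1
        _ ≤ _ := Nat.mul_le_mul_left _ (by omega)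
    have h6 : 0 < n := lt_of_lt_of_le (by positivity) hn1
    have h7 : 2 ^ k * n ≤ 2 * 3 ^ (odds k n).card * n := by
      calc 2 ^ k * n ≤ 3 ^ (odds k n).card * (2 * n) := h5
        _ = _ := by ring
    exact Nat.le_of_mul_le_mul_right h7 h6
  have h1 : (((Ico (2 ^ L) (2 ^ (L + 1))).filter
      fun n : ℕ => ∃ k, K < k ∧ k ≤ L ∧ lam * n ≤ (T^[k] n : ℝ)).card : ℝ) ≤
      ∑ k ∈ Ico (K + 1) (L + 1), (((Ico (2 ^ L) (2 ^ (L + 1))).filter
        fun n => 2 ^ k ≤ 2 * 3 ^ (odds k n).card).card : ℝ) := by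
    exact_mod_cast (card_le_card hsub).trans card_biUnion_le
  refine h1.trans ?_
  have h2 : ∀ k ∈ Ico (K + 1) (L + 1), (((Ico (2 ^ L) (2 ^ (L + 1))).filter
      fun n => 2 ^ k ≤ 2 * 3 ^ (odds k n).card).card : ℝ) ≤ 2 ^ L * (√2 * rho ^ k) := by
    intro k hk
    rw [mem_Ico] at hk
    have h0 : ((Ico (2 ^ L) (2 ^ (L + 1))).filter
        fun n => 2 ^ k ≤ 2 * 3 ^ (odds k n).card).card =
        2 ^ (L - k) * ((range k).powerset.filter fun B => 2 ^ k ≤ 2 * 3 ^ B.card).card := by
      convert card_block k L (by omega) (fun B => 2 ^ k ≤ 2 * 3 ^ B.card)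
    rw [h0]
    push_cast
    have h3 := card_high k
    have h4 : (2 : ℝ) ^ L = 2 ^ (L - k) * 2 ^ k := by rw [← pow_add]; congr 1; omega
    calc (2 : ℝ) ^ (L - k) * (((range k).powerset.filter fun B => 2 ^ k ≤ 2 * 3 ^ B.card).card : ℝ)
        ≤ 2 ^ (L - k) * (√2 * (2 * rho) ^ k) := mul_le_mul_of_nonneg_left h3 (by positivity)
      _ = _ := by rw [h4, mul_pow]; ring
  refine (sum_le_sum h2).trans ?_
  rw [← Finset.mul_sum, ← Finset.mul_sum]
  refine mul_le_mul_of_nonneg_left ?_ (by positivity)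
  have h3 : ∑ k ∈ Ico (K + 1) (L + 1), rho ^ k ≤ rho ^ (K + 1) / (1 - rho) := by
    rcases le_or_gt (K + 1) (L + 1) with h4 | h4
    · rw [geom_sum_Ico' hr1.ne h4]
      apply div_le_div_of_nonneg_right _ (by linarith)
      have : 0 < rho ^ (L + 1) := pow_pos hr0 _
      linarith
    · rw [Ico_eq_empty (by omega), sum_empty]
      apply div_nonneg (pow_nonneg hr0.le _) (by linarith)
  calc √2 * ∑ k ∈ Ico (K + 1) (L + 1), rho ^ k ≤ √2 * (rho ^ (K + 1) / (1 - rho)) :=
        mul_le_mul_of_nonneg_left h3 (by positivity)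
    _ = _ := by ring

end Pool.Agent.Lib.MP_0a5adf_nt.XT
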